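import Pool.Agent.Helper95.BC.S1

/-!
# The bound for the rank
-/

set_option autoImplicit false

namespace Pool.Agent.Helper95.BD

open Pool.Agent.Helper95.BC

theorem rank_bound : ∃ m₀ : ℕ, ∀ m : ℕ, m₀ ≤ m → ∀ t : ℕ,
    (11 / 10 : ℝ) ^ t ≤ 1200 * (m : ℝ) ^ 3 * Real.exp 1 → 16000000 * t ^ 2 ≤ m := by
  have h1 : (fun x : ℝ => 11 * (Real.log 1200 + 3 * Real.log x + 1)) =o[Filter.atTop]
      fun x : ℝ => x ^ (1 / 2 : ℝ) := by
    have h2 : (fun x : ℝ => Real.log x) =o[Filter.atTop] fun x : ℝ => x ^ (1 / 2 : ℝ) :=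
      isLittleO_log_rpow_atTop (by norm_num)
    have h3 : ∀ C : ℝ, (fun _ : ℝ => C) =o[Filter.atTop] fun x : ℝ => x ^ (1 / 2 : ℝ) := by
      intro C
      refine Asymptotics.isLittleO_const_left.2 (Or.inr ?_)
      exact tendsto_norm_atTop_atTop.comp (tendsto_rpow_atTop (by norm_num))
    exact (((h3 (Real.log 1200)).add (h2.const_mul_left 3)).add (h3 1)).const_mul_left 11
  have h4 := (h1.def (show (0 : ℝ) < 1 / 4000 by norm_num)).and (Filter.eventually_gt_atTop 1)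
  have h5 := tendsto_natCast_atTop_atTop (R := ℝ) |>.eventually h4
  obtain ⟨m₀, hm₀⟩ := Filter.eventually_atTop.1 h5
  refine ⟨m₀, fun m hm t ht => ?_⟩
  obtain ⟨h6, h7⟩ := hm₀ m hm
  have hmp : (0 : ℝ) < m := by linarith
  have h8 : (t : ℝ) * Real.log (11 / 10) ≤ Real.log 1200 + 3 * Real.log m + 1 := by
    have h9 := Real.log_le_log (by positivity) ht
    rw [Real.log_pow, Real.log_mul (by positivity) (Real.exp_pos _).ne',
      Real.log_mul (by norm_num) (by positivity), Real.log_pow, Real.log_exp] at h9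
    push_cast at h9
    exact h9
  have h9 : (t : ℝ) ≤ 11 * (Real.log 1200 + 3 * Real.log m + 1) := by
    have h10 : (t : ℝ) * (1 / 11) ≤ t * Real.log (11 / 10) :=
      mul_le_mul_of_nonneg_left log_bound (Nat.cast_nonneg t)
    linarith
  have h10 : (t : ℝ) ≤ 1 / 4000 * (m : ℝ) ^ (1 / 2 : ℝ) := by
    refine h9.trans ((Real.le_norm_self _).trans (h6.trans (le_of_eq ?_)))
    rw [Real.norm_of_nonneg (Real.rpow_nonneg hmp.le _)]
  have h11 : ((m : ℝ) ^ (1 / 2 : ℝ)) ^ 2 = m := by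
    rw [← Real.rpow_natCast, ← Real.rpow_mul hmp.le]
    norm_num
  have h12 : (t : ℝ) ^ 2 ≤ (1 / 4000 * (m : ℝ) ^ (1 / 2 : ℝ)) ^ 2 :=
    pow_le_pow_left₀ (Nat.cast_nonneg t) h10 2
  rw [mul_pow, h11] at h12
  have h13 : ((16000000 * t ^ 2 : ℕ) : ℝ) ≤ m := by
    push_cast
    linarith
  exact_mod_cast h13

end Pool.Agent.Helper95.BD
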