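import Pool.Agent.Helper95.BD.S9

/-!
# The theorem
-/

set_option autoImplicit false

namespace Pool.Agent.Helper95.BD

open Pool.Agent.Helper95.BC

open Classical in
theorem inj_props {V C : Type} (H : Finset V) (κ : V → C) (hκ : Set.InjOn κ (H : Set V)) :
    (∀ a, (H.filter (fun h => κ h = a)).card ≤ 1) ∧
      ((H ×ˢ H).filter (fun p => p.1 ≠ p.2 ∧ κ p.1 = κ p.2)).card ≤ 4 := by
  constructor
  · intro a
    rw [Finset.card_le_one]
    intro h hh h' hh'
    rw [Finset.mem_filter] at hh hh'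
    exact hκ hh.1 hh'.1 (hh.2.trans hh'.2.symm)
  · rw [Finset.card_eq_zero.2]
    · exact Nat.zero_le _
    · refine Finset.filter_eq_empty_iff.2 ?_
      rintro ⟨h, h'⟩ hp ⟨hne, he⟩
      rw [Finset.mem_product] at hp
      exact hne (hκ hp.1 hp.2 he)

open Classical in
theorem many_zero : ∃ m₀ : ℕ, ∀ (V : Type) [Fintype V] (G : SimpleGraph V), C4Free G →
    m₀ ≤ mDegree G → ∀ (s : ℕ) (D : Finset V), 1 ≤ s → 100 * s * mDegree G ≤ D.card →
    (∀ v ∈ D, mDegree G ≤ (nbr G v).card + 1) →
    (∀ v, (nbr G v).card < mDegree G → (nbr G v ∩ D).card ≤ s) → mDegree G ≤ bChrom G := by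
  obtain ⟨m₁, h1⟩ := core_step
  refine ⟨m₁ + 1, ?_⟩
  intro V _ G hC4 hm s D hs hDc hDdeg hDs
  obtain ⟨_, hHcard⟩ := mDegree_spec G
  generalize mDegree G = m at *
  set H : Finset V := Finset.univ.filter (fun v => m ≤ (nbr G v).card) with hH
  have hmemH : ∀ v, v ∈ H ↔ m ≤ (nbr G v).card := fun v => by simp [hH]
  have : NeZero m := ⟨by omega⟩
  have hsm : m ≤ s * m := by nlinarith
  -- the colours of H
  obtain ⟨κ, hκ⟩ : ∃ κ : V → Fin m, Set.InjOn κ (H : Set V) := by
    have h3 : Nonempty ((H : Set V) ↪ Fin m) := by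
      refine Function.Embedding.nonempty_of_card_le ?_
      simpa using hHcard
    obtain ⟨e⟩ := h3
    refine ⟨fun v => if hv : v ∈ H then e ⟨v, hv⟩ else 0, ?_⟩
    intro v hv w hw hvw
    have hv' : v ∈ H := hv
    have hw' : w ∈ H := hw
    simp only [hv', hw', dif_pos] at hvw
    exact congrArg Subtype.val (e.injective hvw)
  obtain ⟨ψ, hψ⟩ := h1 m (by omega) V (Fin m) G H (D \ H) κ s 1 (Fintype.card_fin m) hs le_rfl
    (by norm_num) hC4 (hHcard.trans (by omega))
    (fun h hh h' hh' hadj he => hadj.ne (hκ hh hh' he))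
    (inj_props H κ hκ).1 (inj_props H κ hκ).2
    (fun v hv => by
      rw [hmemH] at hv
      omega)
    (by
      rw [Finset.card_eq_zero.2]
      · exact Nat.zero_le _
      · refine Finset.filter_eq_empty_iff.2 ?_
        rintro v - ⟨hv, hvm⟩
        rw [hmemH] at hv
        omega)
    (fun v hv hvm => by
      rw [hmemH] at hv
      omega)
    (fun v hv => by
      rw [Finset.mem_sdiff] at hv
      refine ⟨hv.2, ?_⟩
      have h4 := hDdeg v hv.1
      have h5 := hv.2
      rw [hmemH] at h5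
      omega)
    (fun v hv => by
      rw [hmemH] at hv
      exact (Finset.card_le_card (Finset.inter_subset_inter_left Finset.sdiff_subset)).trans
        (hDs v (by omega)))
    (by
      have h4 := Finset.le_card_sdiff H D
      have h5 : (96 * 1 + 2) * s * m = 98 * (s * m) := by ring
      have h6 : 100 * s * m = 100 * (s * m) := by ring
      rw [h5]
      rw [h6] at hDc
      omega)
  exact le_csSup (bddAbove_bCol G) ⟨ψ, hψ⟩

open Classical in
theorem many_one : ∃ m₀ : ℕ, ∀ (V : Type) [Fintype V] (G : SimpleGraph V), C4Free G →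
    m₀ ≤ mDegree G → ∀ (s : ℕ) (D : Finset V), 1 ≤ s → 300 * s * mDegree G ≤ D.card →
    (∀ v ∈ D, mDegree G ≤ (nbr G v).card + 2) →
    (∀ v, (nbr G v).card < mDegree G → (nbr G v ∩ D).card ≤ s) → mDegree G ≤ bChrom G + 1 := by
  obtain ⟨m₀, h0⟩ := many_zero
  obtain ⟨m₁, h1⟩ := core_step
  refine ⟨m₀ + m₁ + 100, ?_⟩
  intro V _ G hC4 hm s D hs hDc hDdeg hDs
  obtain ⟨_, hHcard⟩ := mDegree_spec G
  have h0' := h0 V G hC4 (by omega)
  set A : Finset V := Finset.univ.filter (fun v => mDegree G ≤ (nbr G v).card + 1) with hA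
  have hmemA : ∀ v, v ∈ A ↔ mDegree G ≤ (nbr G v).card + 1 := fun v => by simp [hA]
  -- enough vertices of degree at least `m - 1`
  by_cases hA1 : 100 * mDegree G * mDegree G ≤ A.card
  · refine (h0' (mDegree G) A (by omega) hA1 (fun v hv => (hmemA v).1 hv) fun v hv => ?_).trans
      (Nat.le_succ _)
    exact (Finset.card_le_card Finset.inter_subset_left).trans hv.le
  by_cases hA2 : 100 * s * mDegree G ≤ (D ∩ A).card
  · refine (h0' s (D ∩ A) hs hA2 (fun v hv => (hmemA v).1 (Finset.mem_inter.1 hv).2)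
      fun v hv => ?_).trans (Nat.le_succ _)
    exact (Finset.card_le_card (Finset.inter_subset_inter_left Finset.inter_subset_left)).trans
      (hDs v hv)
  clear h0' h0
  generalize mDegree G = m at *
  obtain ⟨k, rfl⟩ : ∃ k, m = k + 1 := ⟨m - 1, by omega⟩
  rw [not_le] at hA1 hA2
  set H₀ : Finset V := Finset.univ.filter (fun v => k + 1 ≤ (nbr G v).card) with hH₀
  have hmemH₀ : ∀ v, v ∈ H₀ ↔ k + 1 ≤ (nbr G v).card := fun v => by simp [hH₀]
  -- at most one vertex of degree `k` has `3 k / 4` neighbours in `H₀`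
  obtain ⟨H, hH₀H, hHc, hHdeg, hHex⟩ : ∃ H : Finset V, H₀ ⊆ H ∧ H.card ≤ H₀.card + 1 ∧
      (∀ v ∈ H, k ≤ (nbr G v).card) ∧
      ∀ v, v ∉ H → (nbr G v).card = k → 4 * (nbr G v ∩ H).card ≤ 3 * k + 4 := by
    by_cases hex : ∃ v, v ∉ H₀ ∧ (nbr G v).card = k ∧ 3 * k < 4 * (nbr G v ∩ H₀).card
    · obtain ⟨v, hv, hvk, hvH⟩ := hex
      refine ⟨insert v H₀, Finset.subset_insert _ _, Finset.card_insert_le _ _, ?_, ?_⟩
      · intro w hw
        rcases Finset.mem_insert.1 hw with rfl | hw
        · exact hvk.ge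
        · have := (hmemH₀ w).1 hw
          omega
      · intro w hw hwk
        rw [Finset.mem_insert, not_or] at hw
        have h3 : (nbr G w ∩ insert v H₀).card ≤ (nbr G w ∩ H₀).card + 1 := by
          refine (Finset.card_le_card ?_).trans (Finset.card_insert_le v (nbr G w ∩ H₀))
          intro z hz
          rw [Finset.mem_inter, Finset.mem_insert] at hz
          rw [Finset.mem_insert, Finset.mem_inter]
          rcases hz with ⟨hz1, rfl | hz2⟩
          · exact Or.inl rfl
          · exact Or.inr ⟨hz1, hz2⟩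
        have h4 : 4 * (nbr G w ∩ H₀).card ≤ 3 * k := by
          by_contra hcon
          rw [not_le] at hcon
          have h5 := Finset.card_union_add_card_inter (nbr G w ∩ H₀) (nbr G v ∩ H₀)
          have h6 : ((nbr G w ∩ H₀) ∩ (nbr G v ∩ H₀)).card ≤ 1 := by
            refine (Finset.card_le_card ?_).trans (hC4.card_le_one hw.1)
            intro z hz
            simp only [Finset.mem_inter] at hz ⊢
            exact ⟨hz.1.1, hz.2.1⟩
          have h7 : ((nbr G w ∩ H₀) ∪ (nbr G v ∩ H₀)).card ≤ H₀.card :=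
            Finset.card_le_card (Finset.union_subset Finset.inter_subset_right
              Finset.inter_subset_right)
          omega
        omega
    · push Not at hex
      refine ⟨H₀, Finset.Subset.refl _, Nat.le_succ _, ?_, ?_⟩
      · intro w hw
        have := (hmemH₀ w).1 hw
        omega
      · intro w hw hwk
        have := hex w hw hwk
        omega
  have hdeg : ∀ v, v ∉ H → (nbr G v).card ≤ k := by
    intro v hv
    have h3 : v ∉ H₀ := fun h => hv (hH₀H h)
    rw [hmemH₀] at h3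
    omega
  obtain ⟨κ, hκ1, hκ2, hκ3⟩ := precolour (C := Fin k) G hC4 H
    (by rw [Fintype.card_fin]; omega) (by rw [Fintype.card_fin]; omega)
  obtain ⟨ψ, hψ⟩ := h1 k (by omega) V (Fin k) G H (D \ A) κ s 2 (Fintype.card_fin k) hs
    (by norm_num) le_rfl hC4 (by omega) hκ1 hκ2 hκ3 hdeg
    (by
      have h3 : (Finset.univ.filter (fun v => v ∉ H ∧ (nbr G v).card = k)).card ≤ A.card := by
        refine Finset.card_le_card ?_
        intro v hv
        rw [Finset.mem_filter] at hv
        rw [hmemA]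
        omega
      nlinarith)
    hHex
    (fun v hv => by
      rw [Finset.mem_sdiff, hmemA] at hv
      have h3 := hDdeg v hv.1
      refine ⟨fun h => ?_, by omega⟩
      have := hHdeg v h
      omega)
    (fun v hv => by
      have h3 := hdeg v hv
      exact (Finset.card_le_card (Finset.inter_subset_inter_left Finset.sdiff_subset)).trans
        (hDs v (by omega)))
    (by
      have h3 : (D \ A).card + (D ∩ A).card = D.card := Finset.card_sdiff_add_card_inter D A
      nlinarith)
  have h3 : k ≤ bChrom G := le_csSup (bddAbove_bCol G) ⟨ψ, hψ⟩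
  omega

open Classical in
theorem many_all : ∃ m₀ : ℕ, ∀ (V : Type) [Fintype V] (G : SimpleGraph V),
    5 ≤ G.egirth ∨ C4Free G → m₀ ≤ mDegree G → ∀ (i s : ℕ) (D : Finset V), i ≤ 1 → 1 ≤ s →
    300 * s * mDegree G ≤ D.card → (∀ v ∈ D, mDegree G ≤ (nbr G v).card + 1 + i) →
    (∀ v, (nbr G v).card < mDegree G → (nbr G v ∩ D).card ≤ s) → mDegree G ≤ bChrom G + i := by
  obtain ⟨m₁, h1⟩ := many_zero
  obtain ⟨m₂, h2⟩ := many_one
  refine ⟨m₁ + m₂, ?_⟩
  intro V _ G hG hm i s D hi hs hDc hDdeg hDs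
  have hC : C4Free G := hG.elim (c4Free_of_egirth G) id
  rcases Nat.lt_or_ge i 1 with h | h
  · obtain rfl : i = 0 := by omega
    refine h1 V G hC (by omega) s D hs (le_trans ?_ hDc) hDdeg hDs
    rw [mul_assoc, mul_assoc]
    exact Nat.mul_le_mul_right _ (by norm_num)
  · obtain rfl : i = 1 := by omega
    exact h2 V G hC (by omega) s D hs hDc hDdeg hDs

end Pool.Agent.Helper95.BD
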