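import Pool.Agent.Helper95.BC.Defs

/-!
# The colours of the vertices of large degree
-/

set_option autoImplicit false

namespace Pool.Agent.Helper95.BD

open Pool.Agent.Helper95.BC

/-- among four vertices of a graph without 4-cycles there are two which are not adjacent -/
theorem exists_nonadj {V : Type} (G : SimpleGraph V) (hC4 : C4Free G) (S : Finset V)
    (hS : 4 ≤ S.card) : ∃ a ∈ S, ∃ b ∈ S, a ≠ b ∧ ¬ G.Adj a b := by
  classical
  by_contra hno
  push Not at hno
  have hpos : 0 < S.card := by omega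
  obtain ⟨p, hp⟩ := Finset.card_pos.1 hpos
  have h3 : 2 < (S.erase p).card := by
    rw [Finset.card_erase_of_mem hp]
    omega
  obtain ⟨q, hq, r, hr, s, hs, hqr, hqs, hrs⟩ := Finset.two_lt_card.1 h3
  rw [Finset.mem_erase] at hq hr hs
  exact hC4 p r q s hr.1.symm hqs (hno p hp q hq.2 hq.1.symm) (hno q hq.2 r hr.2 hqr)
    (hno r hr.2 s hs.2 hrs) (hno s hs.2 p hp hs.1)

/-- a map that is injective on a small set -/
theorem exists_injOn {V C : Type} [Fintype C] [Nonempty C] (K : Finset V)
    (hK : K.card ≤ Fintype.card C) : ∃ κ : V → C, Set.InjOn κ (K : Set V) := by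
  classical
  obtain ⟨c0⟩ := ‹Nonempty C›
  have h : Fintype.card K ≤ Fintype.card C := by
    rw [Fintype.card_coe]
    exact hK
  obtain ⟨e⟩ := Function.Embedding.nonempty_of_card_le h
  refine ⟨fun v => if h : v ∈ K then e ⟨v, h⟩ else c0, ?_⟩
  intro u hu v hv huv
  have hu' : u ∈ K := hu
  have hv' : v ∈ K := hv
  simp only [dif_pos hu', dif_pos hv'] at huv
  exact congrArg Subtype.val (e.injective huv)

open Classical in
theorem precolour {V C : Type} [Fintype V] [Fintype C] (G : SimpleGraph V) (hC4 : C4Free G)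
    (H : Finset V) (hC : 20 ≤ Fintype.card C) (hH : H.card ≤ Fintype.card C + 2) :
    ∃ κ : V → C, (∀ h ∈ H, ∀ h' ∈ H, G.Adj h h' → κ h ≠ κ h') ∧
      (∀ a, (H.filter (fun h => κ h = a)).card ≤ 2) ∧
      ((H ×ˢ H).filter (fun p => p.1 ≠ p.2 ∧ κ p.1 = κ p.2)).card ≤ 4 := by
  have hne : Nonempty C := Fintype.card_pos_iff.1 (by omega)
  by_cases hle : H.card ≤ Fintype.card C
  · obtain ⟨κ, hκ⟩ := exists_injOn (C := C) H hle
    refine ⟨κ, ?_, ?_, ?_⟩
    · intro h hh h' hh' hadj heq
      exact hadj.ne (hκ hh hh' heq)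
    · intro a
      refine le_trans (Finset.card_le_one.2 ?_) (by norm_num)
      intro u hu v hv
      rw [Finset.mem_filter] at hu hv
      exact hκ hu.1 hv.1 (hu.2.trans hv.2.symm)
    · rw [Finset.card_eq_zero.2]
      · norm_num
      · rw [Finset.filter_eq_empty_iff]
        rintro ⟨u, v⟩ huv ⟨h1, h2⟩
        rw [Finset.mem_product] at huv
        exact h1 (hκ huv.1 huv.2 h2)
  · obtain ⟨a, ha, b, hb, hab, hnab⟩ := exists_nonadj G hC4 H (by omega)
    have hcard1 : ((H.erase a).erase b).card = H.card - 2 := by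
      rw [Finset.card_erase_of_mem (Finset.mem_erase.2 ⟨hab.symm, hb⟩),
        Finset.card_erase_of_mem ha]
      omega
    obtain ⟨c, hc, d, hd, hcd, hncd⟩ := exists_nonadj G hC4 ((H.erase a).erase b)
      (by rw [hcard1]; omega)
    rw [Finset.mem_erase, Finset.mem_erase] at hc hd
    have hcardK : ((H.erase b).erase d).card ≤ Fintype.card C := by
      rw [Finset.card_erase_of_mem (Finset.mem_erase.2 ⟨hd.1, hd.2.2⟩),
        Finset.card_erase_of_mem hb]
      omega
    obtain ⟨κ0, hκ0⟩ := exists_injOn (C := C) ((H.erase b).erase d) hcardK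
    have haK : a ∈ ((((H.erase b).erase d : Finset V)) : Set V) := by
      rw [Finset.mem_coe, Finset.mem_erase, Finset.mem_erase]
      exact ⟨fun h => hd.2.1 h.symm, hab, ha⟩
    have hcK : c ∈ ((((H.erase b).erase d : Finset V)) : Set V) := by
      rw [Finset.mem_coe, Finset.mem_erase, Finset.mem_erase]
      exact ⟨hcd, hc.1, hc.2.2⟩
    have hoK : ∀ v ∈ H, v ≠ b → v ≠ d → v ∈ ((((H.erase b).erase d : Finset V)) : Set V) := by
      intro v hv h1 h2
      rw [Finset.mem_coe, Finset.mem_erase, Finset.mem_erase]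
      exact ⟨h2, h1, hv⟩
    let κ : V → C := fun v => if v = b then κ0 a else if v = d then κ0 c else κ0 v
    have hκb : κ b = κ0 a := by simp [κ]
    have hκd : κ d = κ0 c := by simp [κ, hd.1]
    have hκo : ∀ v, v ≠ b → v ≠ d → κ v = κ0 v := by
      intro v h1 h2
      simp [κ, h1, h2]
    have key : ∀ u ∈ H, ∀ v ∈ H, u ≠ v → κ u = κ v →
        (u = a ∧ v = b) ∨ (u = b ∧ v = a) ∨ (u = c ∧ v = d) ∨ (u = d ∧ v = c) := by
      intro u hu v hv huv heq
      by_cases hub : u = b
      · subst hub
        by_cases hvd : v = d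
        · subst hvd
          rw [hκb, hκd] at heq
          exact absurd (hκ0 haK hcK heq).symm hc.2.1
        · rw [hκb, hκo v huv.symm hvd] at heq
          exact Or.inr (Or.inl ⟨rfl, (hκ0 haK (hoK v hv huv.symm hvd) heq).symm⟩)
      · by_cases hud : u = d
        · subst hud
          by_cases hvb : v = b
          · subst hvb
            rw [hκb, hκd] at heq
            exact absurd (hκ0 hcK haK heq) hc.2.1
          · rw [hκd, hκo v hvb huv.symm] at heq
            exact Or.inr (Or.inr (Or.inr ⟨rfl, (hκ0 hcK (hoK v hv hvb huv.symm) heq).symm⟩))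
        · rw [hκo u hub hud] at heq
          by_cases hvb : v = b
          · subst hvb
            rw [hκb] at heq
            exact Or.inl ⟨hκ0 (hoK u hu hub hud) haK heq, rfl⟩
          · by_cases hvd : v = d
            · subst hvd
              rw [hκd] at heq
              exact Or.inr (Or.inr (Or.inl ⟨hκ0 (hoK u hu hub hud) hcK heq, rfl⟩))
            · rw [hκo v hvb hvd] at heq
              exact absurd (hκ0 (hoK u hu hub hud) (hoK v hv hvb hvd) heq) huv
    refine ⟨κ, ?_, ?_, ?_⟩
    · intro h hh h' hh' hadj heq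
      rcases key h hh h' hh' hadj.ne heq with ⟨rfl, rfl⟩ | ⟨rfl, rfl⟩ | ⟨rfl, rfl⟩ | ⟨rfl, rfl⟩
      · exact hnab hadj
      · exact hnab hadj.symm
      · exact hncd hadj
      · exact hncd hadj.symm
    · intro α
      by_contra hlt
      push Not at hlt
      obtain ⟨p, hp, q, hq, r, hr, hpq, hpr, hqr⟩ := Finset.two_lt_card.1 hlt
      rw [Finset.mem_filter] at hp hq hr
      have k1 := key p hp.1 q hq.1 hpq (hp.2.trans hq.2.symm)
      have k2 := key p hp.1 r hr.1 hpr (hp.2.trans hr.2.symm)
      have hac : a ≠ c := fun h => hc.2.1 h.symm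
      have had : a ≠ d := fun h => hd.2.1 h.symm
      have hbc : b ≠ c := fun h => hc.1 h.symm
      have hbd : b ≠ d := fun h => hd.1 h.symm
      rcases k1 with ⟨h1, h2⟩ | ⟨h1, h2⟩ | ⟨h1, h2⟩ | ⟨h1, h2⟩ <;>
      rcases k2 with ⟨h3, h4⟩ | ⟨h3, h4⟩ | ⟨h3, h4⟩ | ⟨h3, h4⟩
      · exact hqr (h2.trans h4.symm)
      · exact hab (h1.symm.trans h3)
      · exact hac (h1.symm.trans h3)
      · exact had (h1.symm.trans h3)
      · exact hab (h3.symm.trans h1)
      · exact hqr (h2.trans h4.symm)
      · exact hbc (h1.symm.trans h3)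
      · exact hbd (h1.symm.trans h3)
      · exact hac (h3.symm.trans h1)
      · exact hbc (h3.symm.trans h1)
      · exact hqr (h2.trans h4.symm)
      · exact hcd (h1.symm.trans h3)
      · exact had (h3.symm.trans h1)
      · exact hbd (h3.symm.trans h1)
      · exact hcd (h3.symm.trans h1)
      · exact hqr (h2.trans h4.symm)
    · have hsub : (H ×ˢ H).filter (fun p => p.1 ≠ p.2 ∧ κ p.1 = κ p.2) ⊆
          ({(a, b), (b, a), (c, d), (d, c)} : Finset (V × V)) := by
        rintro ⟨u, v⟩ huv
        rw [Finset.mem_filter, Finset.mem_product] at huv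
        simp only [Finset.mem_insert, Finset.mem_singleton, Prod.mk.injEq]
        exact key u huv.1.1 v huv.1.2 huv.2.1 huv.2.2
      exact le_trans (Finset.card_le_card hsub) Finset.card_le_four

end Pool.Agent.Helper95.BD
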