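import Pool.Agent.Helper95.BC.Defs

/-!
# Extension of a colouring to vertices of degree exactly the number of colours
-/

set_option autoImplicit false
set_option linter.unusedSectionVars false

namespace Pool.Agent.Helper95.BD

open Pool.Agent.Helper95.BC

/-- every colouring `ψ` that is proper off `W` and equal to `φ` on `T` can be made proper by
changing the colours in `W` -/
def Comp {V C : Type} (G : SimpleGraph V) (T : Finset V) (φ : V → C) (W : Finset V) : Prop :=
  ∀ ψ : V → C, (∀ u v, u ∉ W → v ∉ W → G.Adj u v → ψ u ≠ ψ v) → (∀ t ∈ T, ψ t = φ t) →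
    ∃ ψ' : V → C, (∀ u v, G.Adj u v → ψ' u ≠ ψ' v) ∧ ∀ v, v ∉ W → ψ' v = ψ v

theorem comp_empty {V C : Type} (G : SimpleGraph V) (T : Finset V) (φ : V → C) :
    Comp G T φ ∅ := by
  intro ψ h1 _
  exact ⟨ψ, fun u v => h1 u v (Finset.notMem_empty u) (Finset.notMem_empty v), fun _ _ => rfl⟩

/-- the final step -/
theorem comp_done {V C : Type} {G : SimpleGraph V} {T : Finset V} {φ : V → C} {W : Finset V}
    (h : Comp G T φ W) (hT : ∀ u ∈ T, ∀ v ∈ T, G.Adj u v → φ u ≠ φ v)
    (hWT : ∀ w ∈ W, w ∉ T) (hall : ∀ v, v ∉ T → v ∈ W) :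
    ∃ ψ : V → C, (∀ u v, G.Adj u v → ψ u ≠ ψ v) ∧ ∀ t ∈ T, ψ t = φ t := by
  obtain ⟨ψ, h1, h2⟩ := h φ (fun u v hu hv huv => hT u (by
    by_contra hn
    exact hu (hall u hn)) v (by
    by_contra hn
    exact hv (hall v hn)) huv) (fun _ _ => rfl)
  exact ⟨ψ, h1, fun t ht => h2 t (fun hw => hWT t hw ht)⟩

open Classical in
theorem comp_insert {V C : Type} {G : SimpleGraph V} {T : Finset V} {φ : V → C} {W : Finset V}
    (h : Comp G T φ W) {v : V} (hvT : v ∉ T)
    (hcol : ∀ ψ : V → C, (∀ t ∈ T, ψ t = φ t) → ∃ a : C, ∀ u, u ∉ W → G.Adj v u → ψ u ≠ a) :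
    Comp G T φ (insert v W) := by
  intro ψ h1 h2
  obtain ⟨a, ha⟩ := hcol ψ h2
  obtain ⟨ψ1, hv1, hne1⟩ : ∃ ψ1 : V → C, ψ1 v = a ∧ ∀ u, u ≠ v → ψ1 u = ψ u :=
    ⟨Function.update ψ v a, Function.update_self _ _ _,
      fun u hu => Function.update_of_ne hu _ _⟩
  obtain ⟨ψ', h3, h4⟩ := h ψ1 (by
    intro u w hu hw huw
    by_cases huv : u = v
    · have hwv : w ≠ v := by
        rintro rfl
        rw [huv] at huw
        exact G.irrefl huw
      rw [hne1 w hwv, huv, hv1]
      rw [huv] at huw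
      exact (ha w hw huw).symm
    · rw [hne1 u huv]
      by_cases hwv : w = v
      · rw [hwv, hv1]
        rw [hwv] at huw
        exact ha u hu huw.symm
      · rw [hne1 w hwv]
        exact h1 u w (fun hm => (Finset.mem_insert.1 hm).elim huv hu)
          (fun hm => (Finset.mem_insert.1 hm).elim hwv hw) huw) (by
    intro t ht
    rw [hne1 t (by
      rintro rfl
      exact hvT ht)]
    exact h2 t ht)
  refine ⟨ψ', h3, ?_⟩
  intro w hw
  rw [h4 w (fun hm => hw (Finset.mem_insert_of_mem hm)),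
    hne1 w (fun hm => hw (Finset.mem_insert.2 (Or.inl hm)))]

/-- a free colour -/
theorem free_colour {V C : Type} [Fintype C] (ψ : V → C) (Z : V → Prop)
    (B : Finset C) (hB : B.card < Fintype.card C) (hF : ∀ u, Z u → ψ u ∈ B) :
    ∃ a : C, ∀ u, Z u → ψ u ≠ a := by
  classical
  by_contra hcon
  push Not at hcon
  have h1 : (Finset.univ : Finset C) ⊆ B := by
    intro a _
    obtain ⟨u, h2, h3⟩ := hcon a
    rw [← h3]
    exact hF u h2
  have h2 := Finset.card_le_card h1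
  rw [Finset.card_univ] at h2
  omega

section

variable {V C : Type} [Fintype V] [Fintype C] {G : SimpleGraph V} {m : ℕ}

open Classical in
theorem col_of_lt (hC : Fintype.card C = m) {v : V} (W : Finset V) (hv : (nbr G v).card < m)
    (ψ : V → C) : ∃ a : C, ∀ u, u ∉ W → G.Adj v u → ψ u ≠ a := by
  obtain ⟨a, ha⟩ := free_colour ψ (fun u => G.Adj v u) ((nbr G v).image ψ)
    (lt_of_le_of_lt Finset.card_image_le (by omega))
    (fun u hu => Finset.mem_image.2 ⟨u, mem_nbr.2 hu, rfl⟩)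
  exact ⟨a, fun u _ hu => ha u hu⟩

open Classical in
theorem col_of_nbr (hC : Fintype.card C = m) {v w : V} (W : Finset V)
    (hv : (nbr G v).card ≤ m) (hw : w ∈ W) (hvw : G.Adj v w)
    (ψ : V → C) : ∃ a : C, ∀ u, u ∉ W → G.Adj v u → ψ u ≠ a := by
  have hpos : 0 < (nbr G v).card := Finset.card_pos.2 ⟨w, mem_nbr.2 hvw⟩
  obtain ⟨a, ha⟩ := free_colour ψ (fun u => u ∉ W ∧ G.Adj v u)
    (((nbr G v).erase w).image ψ)
    (lt_of_le_of_lt Finset.card_image_le (by
      rw [Finset.card_erase_of_mem (mem_nbr.2 hvw)]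
      omega))
    (fun u hu => Finset.mem_image.2 ⟨u, Finset.mem_erase.2
      ⟨fun h => hu.1 (by rw [h]; exact hw), mem_nbr.2 hu.2⟩, rfl⟩)
  exact ⟨a, fun u hu1 hu2 => ha u ⟨hu1, hu2⟩⟩

open Classical in
theorem col_of_pair (hC : Fintype.card C = m) {v y y' : V} (W T : Finset V) (φ : V → C)
    (hv : (nbr G v).card ≤ m) (hy : y ∈ T) (hy' : y' ∈ T) (hyy : y ≠ y') (hφ : φ y = φ y')
    (hvy : G.Adj v y) (hvy' : G.Adj v y')
    (ψ : V → C) (hψ : ∀ t ∈ T, ψ t = φ t) : ∃ a : C, ∀ u, u ∉ W → G.Adj v u → ψ u ≠ a := by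
  have hpos : 0 < (nbr G v).card := Finset.card_pos.2 ⟨y, mem_nbr.2 hvy⟩
  obtain ⟨a, ha⟩ := free_colour ψ (fun u => G.Adj v u)
    (((nbr G v).erase y').image ψ)
    (lt_of_le_of_lt Finset.card_image_le (by
      rw [Finset.card_erase_of_mem (mem_nbr.2 hvy')]
      omega))
    (fun u hu => by
      by_cases huy : u = y'
      · rw [huy, hψ y' hy', ← hφ, ← hψ y hy]
        exact Finset.mem_image.2 ⟨y, Finset.mem_erase.2 ⟨hyy, mem_nbr.2 hvy⟩, rfl⟩
      · exact Finset.mem_image.2 ⟨u, Finset.mem_erase.2 ⟨huy, mem_nbr.2 hu⟩, rfl⟩)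
  exact ⟨a, fun u _ hu => ha u hu⟩

open Classical in
/-- a maximal set -/
theorem comp_max (T : Finset V) (φ : V → C) (W : Finset V) (hW : Comp G T φ W)
    (hWT : ∀ w ∈ W, w ∉ T) :
    ∃ W' : Finset V, W ⊆ W' ∧ Comp G T φ W' ∧ (∀ w ∈ W', w ∉ T) ∧
      ∀ v, v ∉ T → v ∉ W' → ¬ Comp G T φ (insert v W') := by
  obtain ⟨W', hW', hmax⟩ := Finset.exists_max_image
    ((Finset.univ : Finset (Finset V)).filter
      (fun W' => W ⊆ W' ∧ Comp G T φ W' ∧ ∀ w ∈ W', w ∉ T)) Finset.card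
    ⟨W, Finset.mem_filter.2 ⟨Finset.mem_univ _, Finset.Subset.refl _, hW, hWT⟩⟩
  obtain ⟨_, h1, h2, h3⟩ := Finset.mem_filter.1 hW'
  refine ⟨W', h1, h2, h3, ?_⟩
  intro v hvT hvW hcomp
  have h4 := hmax (insert v W') (Finset.mem_filter.2 ⟨Finset.mem_univ _,
    h1.trans (Finset.subset_insert _ _), hcomp, by
      intro w hw
      rcases Finset.mem_insert.1 hw with h | h
      · rw [h]
        exact hvT
      · exact h3 w h⟩)
  rw [Finset.card_insert_of_notMem hvW] at h4
  omega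

/-- what a maximal set satisfies -/
structure Stuck (G : SimpleGraph V) (m : ℕ) (T : Finset V) (φ : V → C) (W : Finset V) :
    Prop where
  comp : Comp G T φ W
  dis : ∀ w ∈ W, w ∉ T
  deg : ∀ v, v ∉ T → v ∉ W → (nbr G v).card = m
  nb : ∀ v, v ∉ T → v ∉ W → ∀ w ∈ W, ¬ G.Adj v w

theorem exists_stuck (hC : Fintype.card C = m) (T : Finset V) (φ : V → C) (W : Finset V)
    (hdeg : ∀ v, v ∉ T → (nbr G v).card ≤ m)
    (hW : Comp G T φ W) (hWT : ∀ w ∈ W, w ∉ T) :
    ∃ W' : Finset V, W ⊆ W' ∧ Stuck G m T φ W' := by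
  classical
  obtain ⟨W', h1, h2, h3, h4⟩ := comp_max T φ W hW hWT
  refine ⟨W', h1, h2, h3, ?_, ?_⟩
  · intro v hvT hvW
    by_contra hne
    have h5 := hdeg v hvT
    exact h4 v hvT hvW (comp_insert h2 hvT (fun ψ _ => col_of_lt hC W' (by omega) ψ))
  · intro v hvT hvW w hw hvw
    exact h4 v hvT hvW (comp_insert h2 hvT
      (fun ψ _ => col_of_nbr hC W' (hdeg v hvT) hw hvw ψ))

open Classical in
/-- two vertices of `Y`, not adjacent, with a common free colour -/
theorem find_pair (hc4 : C4Free G) (hC : Fintype.card C = m) (hm : 100 ≤ m) (T : Finset V)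
    (φ : V → C) (u₀ : V) (Y : Finset V) (hY : ∀ y ∈ Y, G.Adj u₀ y) (hYc : m ≤ 5 * Y.card)
    (hT : ∀ y ∈ Y, 5 * (nbr G y ∩ T).card ≤ 4 * m) :
    ∃ y ∈ Y, ∃ y' ∈ Y, y ≠ y' ∧ ¬ G.Adj y y' ∧ ∃ a : C,
      (∀ t ∈ T, G.Adj y t → φ t ≠ a) ∧ ∀ t ∈ T, G.Adj y' t → φ t ≠ a := by
  obtain ⟨r, hr⟩ : ∃ r : V → C → Prop, ∀ y a, r y a ↔ ∀ t ∈ T, G.Adj y t → φ t ≠ a :=
    ⟨_, fun _ _ => Iff.rfl⟩
  have hrow : ∀ y ∈ Y, m ≤ 5 * ((Finset.univ : Finset C).bipartiteAbove r y).card := by
    intro y hy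
    have h1 : (Finset.univ : Finset C) ⊆ ((Finset.univ : Finset C).bipartiteAbove r y) ∪
        (nbr G y ∩ T).image φ := by
      intro a _
      by_cases h : r y a
      · exact Finset.mem_union_left _ (Finset.mem_filter.2 ⟨Finset.mem_univ _, h⟩)
      · refine Finset.mem_union_right _ ?_
        rw [hr] at h
        push Not at h
        obtain ⟨t, ht, h2, h3⟩ := h
        exact Finset.mem_image.2 ⟨t, Finset.mem_inter.2 ⟨mem_nbr.2 h2, ht⟩, h3⟩
    have h2 := Finset.card_le_card h1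
    have h3 := Finset.card_union_le ((Finset.univ : Finset C).bipartiteAbove r y)
      ((nbr G y ∩ T).image φ)
    have h4 : ((nbr G y ∩ T).image φ).card ≤ (nbr G y ∩ T).card := Finset.card_image_le
    have h5 := hT y hy
    rw [Finset.card_univ, hC] at h2
    omega
  have hex : ∃ a : C, 2 < (Y.bipartiteBelow r a).card := by
    by_contra hcon
    push Not at hcon
    have h1 := Finset.sum_card_bipartiteAbove_eq_sum_card_bipartiteBelow (s := Y)
      (t := (Finset.univ : Finset C)) r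
    have h2 : ∑ a : C, (Y.bipartiteBelow r a).card ≤ ∑ _a : C, 2 :=
      Finset.sum_le_sum (fun a _ => hcon a)
    rw [Finset.sum_const, Finset.card_univ, hC, smul_eq_mul] at h2
    have h3 : Y.card * m ≤ ∑ y ∈ Y, 5 * ((Finset.univ : Finset C).bipartiteAbove r y).card := by
      have h4 := Finset.card_nsmul_le_sum Y
        (fun y => 5 * ((Finset.univ : Finset C).bipartiteAbove r y).card) m hrow
      rwa [smul_eq_mul] at h4
    rw [← Finset.mul_sum, h1] at h3
    have h4 : 20 ≤ Y.card := by omega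
    have h5 : 20 * m ≤ Y.card * m := Nat.mul_le_mul_right m h4
    omega
  obtain ⟨a, ha⟩ := hex
  obtain ⟨y1, h1, y2, h2, y3, h3, h12, h13, h23⟩ := Finset.two_lt_card.1 ha
  obtain ⟨g1, r1⟩ := Finset.mem_filter.1 h1
  obtain ⟨g2, r2⟩ := Finset.mem_filter.1 h2
  obtain ⟨g3, r3⟩ := Finset.mem_filter.1 h3
  rw [hr] at r1 r2 r3
  by_cases hadj : G.Adj y1 y2
  · by_cases hadj' : G.Adj y1 y3
    · exact absurd (hY y3 g3).symm (hc4 u₀ y1 y2 y3 (by
        rintro rfl
        exact G.irrefl (hY u₀ g1)) h23 (hY y2 g2) hadj.symm hadj')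
    · exact ⟨y1, g1, y3, g3, h13, hadj', a, r1, r3⟩
  · exact ⟨y1, g1, y2, g2, h12, hadj, a, r1, r2⟩

open Classical in
/-- the number of vertices which are repaired in one step -/
theorem repaired (hc4 : C4Free G) (hm : 100 ≤ m) (K : Finset V) (u₀ y y' : V)
    (hK : ∀ z ∈ K, m + 10 ≤ 5 * (nbr G z ∩ K).card) (hu : u₀ ∈ K) :
    m * m ≤ 50 * ((((nbr G u₀ ∩ K).erase y).erase y').biUnion
      (fun z => (((nbr G z ∩ K).erase u₀).erase y).erase y')).card := by
  have hA : m ≤ 5 * (((nbr G u₀ ∩ K).erase y).erase y').card := by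
    have h1 := hK u₀ hu
    have h2 := Finset.pred_card_le_card_erase (s := nbr G u₀ ∩ K) (a := y)
    have h3 := Finset.pred_card_le_card_erase (s := (nbr G u₀ ∩ K).erase y) (a := y')
    omega
  have hB : ∀ z ∈ ((nbr G u₀ ∩ K).erase y).erase y',
      m - 5 ≤ 5 * ((((nbr G z ∩ K).erase u₀).erase y).erase y').card := by
    intro z hz
    have h0 := (Finset.mem_inter.1 (Finset.mem_of_mem_erase (Finset.mem_of_mem_erase hz))).2
    have h1 := hK z h0
    have h2 := Finset.pred_card_le_card_erase (s := nbr G z ∩ K) (a := u₀)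
    have h3 := Finset.pred_card_le_card_erase (s := (nbr G z ∩ K).erase u₀) (a := y)
    have h4 := Finset.pred_card_le_card_erase (s := ((nbr G z ∩ K).erase u₀).erase y) (a := y')
    omega
  rw [Finset.card_biUnion]
  · have h1 := Finset.card_nsmul_le_sum (((nbr G u₀ ∩ K).erase y).erase y')
      (fun z => 5 * ((((nbr G z ∩ K).erase u₀).erase y).erase y').card) (m - 5) hB
    rw [smul_eq_mul, ← Finset.mul_sum] at h1
    obtain ⟨k, hk⟩ : ∃ k, m = k + 5 := ⟨m - 5, by omega⟩
    rw [hk, Nat.add_sub_cancel] at h1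
    rw [hk] at hA
    rw [hk]
    have h2 : (k + 5) * k ≤ 5 * (((nbr G u₀ ∩ K).erase y).erase y').card * k :=
      Nat.mul_le_mul_right k hA
    have h3 : 95 ≤ k := by omega
    nlinarith
  · intro z hz z' hz' hne
    refine Finset.disjoint_left.2 ?_
    intro w hw hw'
    have e1 := Finset.mem_of_mem_erase (Finset.mem_of_mem_erase (Finset.mem_coe.1 hz))
    have e2 := Finset.mem_of_mem_erase (Finset.mem_of_mem_erase (Finset.mem_coe.1 hz'))
    have e3 := Finset.mem_of_mem_erase (Finset.mem_of_mem_erase hw)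
    have e4 := Finset.mem_of_mem_erase (Finset.mem_of_mem_erase hw')
    obtain ⟨e5, e6⟩ := Finset.mem_erase.1 e3
    obtain ⟨_, e7⟩ := Finset.mem_erase.1 e4
    have f1 := mem_nbr.1 (Finset.mem_inter.1 e1).1
    have f2 := mem_nbr.1 (Finset.mem_inter.1 e2).1
    have f3 := mem_nbr.1 (Finset.mem_inter.1 e6).1
    have f4 := mem_nbr.1 (Finset.mem_inter.1 e7).1
    exact hc4 u₀ w z z' (Ne.symm e5) hne f1 f3 f4.symm f2.symm

open Classical in
theorem extend_steps (hc4 : C4Free G) (hC : Fintype.card C = m) (hm : 100 ≤ m) (n : ℕ) :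
    ∀ (T : Finset V) (φ : V → C) (W : Finset V),
      (∀ u ∈ T, ∀ v ∈ T, G.Adj u v → φ u ≠ φ v) →
      (∀ v, v ∉ T → (nbr G v).card ≤ m) → Comp G T φ W → (∀ w ∈ W, w ∉ T) →
      50 * (Finset.univ.filter (fun v => v ∉ T ∧ v ∉ W)).card ≤ n * (m * m) →
      (∀ v, v ∉ T → (nbr G v).card = m → 5 * ((nbr G v ∩ T).card + 2 * n) ≤ 4 * m) →
      ∃ ψ : V → C, (∀ u v, G.Adj u v → ψ u ≠ ψ v) ∧ ∀ t ∈ T, ψ t = φ t := by
  induction n with
  | zero =>
    intro T φ W hT hdeg hW hWT hK _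
    refine comp_done hW hT hWT ?_
    intro v hvT
    by_contra hvW
    have h1 : 0 < (Finset.univ.filter (fun v => v ∉ T ∧ v ∉ W)).card :=
      Finset.card_pos.2 ⟨v, Finset.mem_filter.2 ⟨Finset.mem_univ _, hvT, hvW⟩⟩
    omega
  | succ n ih =>
    intro T φ W hT hdeg hW hWT hK hload
    obtain ⟨W1, hWW, hst⟩ := exists_stuck hC T φ W hdeg hW hWT
    by_cases hall : ∀ v, v ∉ T → v ∈ W1
    · exact comp_done hst.comp hT hst.dis hall
    push Not at hall
    obtain ⟨u₀, hu0T, hu0W⟩ := hall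
    set K : Finset V := Finset.univ.filter (fun v => v ∉ T ∧ v ∉ W1) with hKdef
    have hKm : ∀ v, v ∈ K ↔ v ∉ T ∧ v ∉ W1 := by
      intro v
      rw [hKdef, Finset.mem_filter]
      exact ⟨fun h => h.2, fun h => ⟨Finset.mem_univ _, h⟩⟩
    have hu0K : u₀ ∈ K := (hKm u₀).2 ⟨hu0T, hu0W⟩
    have hKdeg : ∀ z ∈ K, m + 10 ≤ 5 * (nbr G z ∩ K).card := by
      intro z hz
      obtain ⟨h1, h2⟩ := (hKm z).1 hz
      have h3 := hst.deg z h1 h2
      have h4 := hload z h1 h3
      have h5 : nbr G z ⊆ (nbr G z ∩ T) ∪ (nbr G z ∩ K) := by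
        intro w hw
        by_cases hwT : w ∈ T
        · exact Finset.mem_union_left _ (Finset.mem_inter.2 ⟨hw, hwT⟩)
        · refine Finset.mem_union_right _ (Finset.mem_inter.2 ⟨hw, (hKm w).2 ⟨hwT, ?_⟩⟩)
          intro hwW
          exact hst.nb z h1 h2 w hwW (mem_nbr.1 hw)
      have h6 := (Finset.card_le_card h5).trans (Finset.card_union_le _ _)
      omega
    obtain ⟨y, hy, y', hy', hyy, hnadj, a, hay, hay'⟩ :=
      find_pair hc4 hC hm T φ u₀ (nbr G u₀ ∩ K) (fun y hy => mem_nbr.1 (Finset.mem_inter.1 hy).1)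
        (by
          have := hKdeg u₀ hu0K
          omega) (by
          intro y hy
          obtain ⟨h1, h2⟩ := (hKm y).1 (Finset.mem_inter.1 hy).2
          have h3 := hload y h1 (hst.deg y h1 h2)
          omega)
    have hay0 := mem_nbr.1 (Finset.mem_inter.1 hy).1
    have hay0' := mem_nbr.1 (Finset.mem_inter.1 hy').1
    obtain ⟨hyT, hyW⟩ := (hKm y).1 (Finset.mem_inter.1 hy).2
    obtain ⟨hyT', hyW'⟩ := (hKm y').1 (Finset.mem_inter.1 hy').2
    obtain ⟨φ', hφy, hφy', hφne⟩ : ∃ φ' : V → C, φ' y = a ∧ φ' y' = a ∧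
        ∀ u, u ≠ y → u ≠ y' → φ' u = φ u := by
      refine ⟨fun u => if u = y ∨ u = y' then a else φ u, ?_, ?_, ?_⟩
      · simp
      · simp
      · intro u h1 h2
        simp [h1, h2]
    have hφT : ∀ t ∈ T, φ' t = φ t := by
      intro t ht
      refine hφne t ?_ ?_
      · rintro rfl
        exact hyT ht
      · rintro rfl
        exact hyT' ht
    obtain ⟨T', hT'def⟩ : ∃ T' : Finset V, T' = insert y (insert y' T) := ⟨_, rfl⟩
    have hT'm : ∀ v, v ∈ T' ↔ v = y ∨ v = y' ∨ v ∈ T := by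
      intro v
      rw [hT'def, Finset.mem_insert, Finset.mem_insert]
    have hTT' : ∀ v, v ∉ T' → v ∉ T ∧ v ≠ y ∧ v ≠ y' := by
      intro v hv
      rw [hT'm] at hv
      push Not at hv
      exact ⟨hv.2.2, hv.1, hv.2.1⟩
    have hT'proper : ∀ u ∈ T', ∀ v ∈ T', G.Adj u v → φ' u ≠ φ' v := by
      intro u hu v hv huv
      rcases (hT'm u).1 hu with rfl | rfl | hu
      · rcases (hT'm v).1 hv with rfl | rfl | hv
        · exact absurd huv (G.irrefl)
        · exact absurd huv hnadj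
        · rw [hφy, hφT v hv]
          exact (hay v hv huv).symm
      · rcases (hT'm v).1 hv with rfl | rfl | hv
        · exact absurd huv.symm hnadj
        · exact absurd huv (G.irrefl)
        · rw [hφy', hφT v hv]
          exact (hay' v hv huv).symm
      · rcases (hT'm v).1 hv with rfl | rfl | hv
        · rw [hφy, hφT u hu]
          exact hay u hu huv.symm
        · rw [hφy', hφT u hu]
          exact hay' u hu huv.symm
        · rw [hφT u hu, hφT v hv]
          exact hT u hu v hv huv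
    have hcomp1 : Comp G T' φ' W1 := by
      intro ψ h1 h2
      refine hst.comp ψ h1 ?_
      intro t ht
      rw [h2 t ((hT'm t).2 (Or.inr (Or.inr ht))), hφT t ht]
    have hu0T' : u₀ ∉ T' := by
      intro h
      rcases (hT'm u₀).1 h with h | h | h
      · rw [← h] at hay0
        exact G.irrefl hay0
      · rw [← h] at hay0'
        exact G.irrefl hay0'
      · exact hu0T h
    have hcomp2 : Comp G T' φ' (insert u₀ W1) := by
      refine comp_insert hcomp1 hu0T' ?_
      intro ψ hψ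
      exact col_of_pair hC W1 T' φ' (hdeg u₀ hu0T) ((hT'm y).2 (Or.inl rfl))
        ((hT'm y').2 (Or.inr (Or.inl rfl))) hyy (hφy.trans hφy'.symm) hay0 hay0' ψ hψ
    have hdis2 : ∀ w ∈ insert u₀ W1, w ∉ T' := by
      intro w hw
      rcases Finset.mem_insert.1 hw with h | h
      · rw [h]
        exact hu0T'
      · intro hwT
        rcases (hT'm w).1 hwT with h' | h' | h'
        · rw [h'] at h
          exact hyW h
        · rw [h'] at h
          exact hyW' h
        · exact hst.dis w h h'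
    obtain ⟨W2, hW12, hst2⟩ := exists_stuck hC T' φ' (insert u₀ W1)
      (fun v hv => hdeg v (hTT' v hv).1) hcomp2 hdis2
    have hclosed : ∀ z, z ∉ T' → ∀ w ∈ W2, G.Adj w z → z ∈ W2 := by
      intro z hz w hw hwz
      by_contra hzW
      exact hst2.nb z hz hzW w hw hwz.symm
    have hu0W2 : u₀ ∈ W2 := hW12 (Finset.mem_insert_self _ _)
    have hrep := repaired hc4 hm K u₀ y y' hKdeg hu0K
    set B : Finset V := (((nbr G u₀ ∩ K).erase y).erase y').biUnion
      (fun z => (((nbr G z ∩ K).erase u₀).erase y).erase y') with hBdef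
    have hBsub : ∀ w ∈ B, w ∈ K ∧ w ∈ W2 := by
      intro w hw
      obtain ⟨z, hz, hwz⟩ := Finset.mem_biUnion.1 hw
      obtain ⟨z1, z2⟩ := Finset.mem_erase.1 hz
      obtain ⟨z3, z4⟩ := Finset.mem_erase.1 z2
      obtain ⟨z5, z6⟩ := Finset.mem_inter.1 z4
      obtain ⟨w1, w2⟩ := Finset.mem_erase.1 hwz
      obtain ⟨w3, w4⟩ := Finset.mem_erase.1 w2
      obtain ⟨w5, w6⟩ := Finset.mem_erase.1 w4
      obtain ⟨w7, w8⟩ := Finset.mem_inter.1 w6
      have hzT' : z ∉ T' := by
        intro h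
        rcases (hT'm z).1 h with h | h | h
        · exact z3 h
        · exact z1 h
        · exact ((hKm z).1 z6).1 h
      have hwT' : w ∉ T' := by
        intro h
        rcases (hT'm w).1 h with h | h | h
        · exact w3 h
        · exact w1 h
        · exact ((hKm w).1 w8).1 h
      have hzW2 : z ∈ W2 := hclosed z hzT' u₀ hu0W2 (mem_nbr.1 z5)
      exact ⟨w8, hclosed w hwT' z hzW2 (mem_nbr.1 w7)⟩
    have hK' : (Finset.univ.filter (fun v => v ∉ T' ∧ v ∉ W2)).card + B.card ≤ K.card := by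
      rw [← Finset.card_union_of_disjoint]
      · refine Finset.card_le_card ?_
        intro v hv
        rcases Finset.mem_union.1 hv with h | h
        · obtain ⟨_, h1, h2⟩ := Finset.mem_filter.1 h
          exact (hKm v).2 ⟨(hTT' v h1).1, fun h3 => h2 (hW12 (Finset.mem_insert_of_mem h3))⟩
        · exact (hBsub v h).1
      · refine Finset.disjoint_left.2 ?_
        intro v hv hvB
        exact (Finset.mem_filter.1 hv).2.2 (hBsub v hvB).2
    have hKW : K.card ≤ (Finset.univ.filter (fun v => v ∉ T ∧ v ∉ W)).card := by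
      refine Finset.card_le_card ?_
      intro v hv
      obtain ⟨h1, h2⟩ := (hKm v).1 hv
      exact Finset.mem_filter.2 ⟨Finset.mem_univ _, h1, fun h3 => h2 (hWW h3)⟩
    obtain ⟨ψ, hψ1, hψ2⟩ := ih T' φ' W2 hT'proper (fun v hv => hdeg v (hTT' v hv).1)
      hst2.comp hst2.dis (by
        have h1 : (n + 1) * (m * m) = n * (m * m) + m * m := by ring
        rw [h1] at hK
        omega) (by
        intro v hv hvm
        have h1 := hload v (hTT' v hv).1 hvm
        have h2 : nbr G v ∩ T' ⊆ insert y (insert y' (nbr G v ∩ T)) := by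
          intro w hw
          obtain ⟨h3, h4⟩ := Finset.mem_inter.1 hw
          rcases (hT'm w).1 h4 with h | h | h
          · exact Finset.mem_insert.2 (Or.inl h)
          · exact Finset.mem_insert_of_mem (Finset.mem_insert.2 (Or.inl h))
          · exact Finset.mem_insert_of_mem (Finset.mem_insert_of_mem
              (Finset.mem_inter.2 ⟨h3, h⟩))
        have h3 := Finset.card_le_card h2
        have h4 := Finset.card_insert_le y (insert y' (nbr G v ∩ T))
        have h5 := Finset.card_insert_le y' (nbr G v ∩ T)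
        omega)
    refine ⟨ψ, hψ1, ?_⟩
    intro t ht
    rw [hψ2 t ((hT'm t).2 (Or.inr (Or.inr ht))), hφT t ht]

end

open Classical in
theorem extend_tight : ∃ m₀ : ℕ, ∀ m : ℕ, m₀ ≤ m → ∀ (V C : Type) [Fintype V] [Fintype C]
    (G : SimpleGraph V) (T : Finset V) (φ : V → C), C4Free G → Fintype.card C = m →
    (∀ u ∈ T, ∀ v ∈ T, G.Adj u v → φ u ≠ φ v) →
    (∀ v, v ∉ T → (nbr G v).card ≤ m) →
    (Finset.univ.filter (fun v => v ∉ T ∧ (nbr G v).card = m)).card ≤ 200 * m ^ 2 →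
    (∀ v, v ∉ T → (nbr G v).card = m → 100 * (nbr G v ∩ T).card ≤ 79 * m) →
    ∃ ψ : V → C, (∀ u v, G.Adj u v → ψ u ≠ ψ v) ∧ ∀ t ∈ T, ψ t = φ t := by
  refine ⟨2000000, ?_⟩
  intro m hm V C _ _ G T φ hc4 hC hT hdeg hcount hload
  obtain ⟨W, _, hst⟩ := exists_stuck hC T φ ∅ hdeg (comp_empty G T φ)
    (fun w hw => absurd hw (Finset.notMem_empty w))
  obtain ⟨n, hn⟩ : ∃ n : ℕ, n = 10000 := ⟨_, rfl⟩
  refine extend_steps hc4 hC (by omega) n T φ W hT hdeg hst.comp hst.dis ?_ ?_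
  · have h1 : (Finset.univ.filter (fun v => v ∉ T ∧ v ∉ W)).card ≤
        (Finset.univ.filter (fun v => v ∉ T ∧ (nbr G v).card = m)).card := by
      refine Finset.card_le_card ?_
      intro v hv
      obtain ⟨_, h2, h3⟩ := Finset.mem_filter.1 hv
      exact Finset.mem_filter.2 ⟨Finset.mem_univ _, h2, hst.deg v h2 h3⟩
    have h2 : m ^ 2 = m * m := by ring
    rw [h2] at hcount
    rw [hn]
    have h3 := h1.trans hcount
    calc 50 * (Finset.univ.filter (fun v => v ∉ T ∧ v ∉ W)).card ≤ 50 * (200 * (m * m)) :=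
          Nat.mul_le_mul_left 50 h3
      _ = 10000 * (m * m) := by ring
  · intro v hv hvm
    have h1 := hload v hv hvm
    omega

end Pool.Agent.Helper95.BD
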