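import Pool.Agent.Helper95.BD.S0
import Pool.Agent.Helper95.BC.S1

/-!
# The choice of the centres
-/

set_option autoImplicit false

namespace Pool.Agent.Helper95.BD

open Pool.Agent.Helper95.BC

open Classical in
/-- at most `m * s` vertices of `A` are near `y` -/
private theorem s3_near {V : Type} [Fintype V] (G : SimpleGraph V) (m s : ℕ)
    (H X A : Finset V) (hAX : A ⊆ X)
    (hdeg : ∀ v, v ∉ H → (nbr G v).card ≤ m) (hXs : ∀ v, v ∉ H → (nbr G v ∩ X).card ≤ s)
    {y : V} (hy : y ∉ H) :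
    (A.filter (fun a => Near G H y a)).card ≤ m * s := by
  have hsub : A.filter (fun a => Near G H y a) ⊆
      ((nbr G y).filter (fun w => w ∉ H)).biUnion (fun w => nbr G w ∩ X) := by
    intro a ha
    obtain ⟨haA, _, w, hw, h1, h2⟩ := Finset.mem_filter.1 ha
    exact Finset.mem_biUnion.2 ⟨w, Finset.mem_filter.2 ⟨mem_nbr.2 h1, hw⟩,
      Finset.mem_inter.2 ⟨mem_nbr.2 h2, hAX haA⟩⟩
  refine (Finset.card_le_card hsub).trans ?_
  refine (Finset.card_biUnion_le_card_mul _ _ s ?_).trans ?_
  · intro w hw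
    exact hXs w (Finset.mem_filter.1 hw).2
  · refine Nat.mul_le_mul_right _ ?_
    exact (Finset.card_filter_le _ _).trans (hdeg y hy)

open Classical in
/-- at most `s` vertices of `A` are adjacent to `y` -/
private theorem s3_adj {V : Type} [Fintype V] (G : SimpleGraph V) (s : ℕ)
    (H X A : Finset V) (hAX : A ⊆ X) (hXs : ∀ v, v ∉ H → (nbr G v ∩ X).card ≤ s)
    {y : V} (hy : y ∉ H) :
    (A.filter (fun a => G.Adj a y)).card ≤ s := by
  refine (Finset.card_le_card ?_).trans (hXs y hy)
  intro a ha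
  obtain ⟨haA, h⟩ := Finset.mem_filter.1 ha
  exact Finset.mem_inter.2 ⟨mem_nbr.2 h.symm, hAX haA⟩

open Classical in
/-- the number of vertices that are watched -/
private theorem s3_card {V : Type} [Fintype V] (G : SimpleGraph V) (m s : ℕ) (hm : 1 ≤ m)
    (hsm : s ≤ m) (H X B Y : Finset V) (hXH : ∀ v ∈ X, v ∉ H)
    (hdeg : ∀ v, v ∉ H → (nbr G v).card ≤ m)
    (hX : X.card ≤ 192 * s * m) (hB : B.card ≤ 200 * m ^ 2)
    (hY : ∀ y ∈ Y, y ∈ X ∨ y ∈ B ∨ ∃ v ∈ X, G.Adj v y) :
    2 * Y.card ≤ 1200 * m ^ 3 := by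
  have hsub : Y ⊆ X.biUnion (fun v => insert v (nbr G v)) ∪ B := by
    intro y hy
    rcases hY y hy with h | h | ⟨v, hv, h⟩
    · exact Finset.mem_union_left _
        (Finset.mem_biUnion.2 ⟨y, h, Finset.mem_insert_self _ _⟩)
    · exact Finset.mem_union_right _ h
    · exact Finset.mem_union_left _
        (Finset.mem_biUnion.2 ⟨v, hv, Finset.mem_insert_of_mem (mem_nbr.2 h)⟩)
  have h1 : Y.card ≤ X.card * (m + 1) + B.card := by
    refine (Finset.card_le_card hsub).trans ((Finset.card_union_le _ _).trans ?_)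
    refine Nat.add_le_add_right ?_ _
    refine Finset.card_biUnion_le_card_mul _ _ (m + 1) ?_
    intro v hv
    refine (Finset.card_insert_le _ _).trans ?_
    have := hdeg v (hXH v hv)
    omega
  have h2 : X.card ≤ 192 * m * m :=
    hX.trans (Nat.mul_le_mul_right _ (Nat.mul_le_mul_left _ hsm))
  have h3 : X.card * (m + 1) ≤ 192 * m * m * (m + 1) := Nat.mul_le_mul_right _ h2
  have h4 : m ^ 2 ≤ m ^ 3 := Nat.pow_le_pow_right hm (by norm_num)
  have h5 : 192 * m * m * (m + 1) = 192 * m ^ 3 + 192 * m ^ 2 := by ring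
  omega

open Classical in
theorem choose_centres {V C : Type} [Fintype V] [Fintype C] [Nonempty V] (G : SimpleGraph V)
    (m s : ℕ) (hm : 1 ≤ m) (hs : 1 ≤ s) (hsm : s ≤ m) (H X B : Finset V) (κ : V → C)
    (Cs : Finset C) (hcard : Fintype.card C = m) (hXH : ∀ v ∈ X, v ∉ H)
    (hdeg : ∀ v, v ∉ H → (nbr G v).card ≤ m)
    (hXs : ∀ v, v ∉ H → (nbr G v ∩ X).card ≤ s)
    (hX : X.card ≤ 192 * s * m) (hB : B.card ≤ 200 * m ^ 2)
    (hcand : ∀ c ∈ Cs, 47 * s * m ≤
      (X.filter (fun v => ∀ h ∈ H, G.Adj v h → κ h ≠ c)).card)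
    (hload : ∀ t : ℕ, (11 / 10 : ℝ) ^ t ≤ 1200 * (m : ℝ) ^ 3 * Real.exp ((1 / 450) * m) →
      40 * t ≤ m)
    (hload' : ∀ t : ℕ, (11 / 10 : ℝ) ^ t ≤ 1200 * (m : ℝ) ^ 3 * Real.exp 1 →
      16000000 * t ^ 2 ≤ m) :
    ∃ x : C → V, (∀ c ∈ Cs, x c ∈ X) ∧ (∀ c ∈ Cs, ∀ h ∈ H, G.Adj (x c) h → κ h ≠ c) ∧
      (∀ c ∈ Cs, ∀ c' ∈ Cs, ¬ G.Adj (x c) (x c')) ∧ Set.InjOn x (Cs : Set C) ∧
      ∀ y, y ∉ H → (y ∈ X ∨ y ∈ B ∨ ∃ v ∈ X, G.Adj v y) →
        40 * (mates G H Cs x y).card ≤ m ∧ 16000000 * rank G Cs x y ^ 2 ≤ m := by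
  -- the vertices that are watched
  set Y : Finset V := Finset.univ.filter
    (fun y => y ∉ H ∧ (y ∈ X ∨ y ∈ B ∨ ∃ v ∈ X, G.Adj v y)) with hYdef
  set J : Finset (V × Bool) := Y ×ˢ Finset.univ with hJ
  have hJcard : J.card ≤ 1200 * m ^ 3 := by
    have h1 := s3_card G m s hm hsm H X B Y hXH hdeg hX hB
      (fun y hy => (Finset.mem_filter.1 hy).2.2)
    rw [hJ, Finset.card_product, Finset.card_univ, Fintype.card_bool]
    omega
  have hCs : Cs.card ≤ m := hcard ▸ Finset.card_le_univ Cs
  have hm0 : (0 : ℝ) < m := by exact_mod_cast hm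
  set ρ : V × Bool → ℝ := fun p => if p.2 then 1 / 45 else 1 / (45 * m) with hρdef
  have hρ : ∀ p, 0 ≤ ρ p := by
    intro p
    rw [hρdef]
    dsimp only
    split_ifs
    · norm_num
    · positivity
  obtain ⟨x, ⟨h1, h2, h3, h4⟩, h5⟩ := greedy_gen (ι := C) (α := V) (γ := V × Bool) (fun _ => 0) J
    (fun _ p => ρ p) (fun _ p => hρ p)
    (fun _ v p => if p.2 then Near G H p.1 v else G.Adj v p.1)
    (fun S x => (∀ c ∈ S, x c ∈ X) ∧ (∀ c ∈ S, ∀ h ∈ H, G.Adj (x c) h → κ h ≠ c) ∧
      (∀ c ∈ S, ∀ c' ∈ S, ¬ G.Adj (x c) (x c')) ∧ Set.InjOn x (S : Set C))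
    ⟨fun _ => Classical.arbitrary V, by simp⟩ Cs (by
      intro S hS c hc hcS _ f hf _
      obtain ⟨f1, f2, f3, f4⟩ := hf
      -- the forbidden vertices
      set B' : Finset V := S.biUnion (fun c' => insert (f c') (nbr G (f c') ∩ X)) with hB'
      have hBcard : B'.card ≤ m * (s + 1) := by
        refine (Finset.card_biUnion_le_card_mul _ _ (s + 1) ?_).trans ?_
        · intro c' hc'
          refine (Finset.card_insert_le _ _).trans ?_
          have := hXs _ (hXH _ (f1 c' hc'))
          omega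
        · exact Nat.mul_le_mul_right _ ((Finset.card_le_card hS).trans hCs)
      set A0 : Finset V := X.filter (fun v => ∀ h ∈ H, G.Adj v h → κ h ≠ c) with hA0
      set A : Finset V := A0 \ B' with hA
      have hAX : A ⊆ X := Finset.sdiff_subset.trans (Finset.filter_subset _ _)
      have hAcard : 45 * (m * s) ≤ A.card := by
        have e1 : A0.card - B'.card ≤ A.card := Finset.le_card_sdiff _ _
        have e2 : 47 * s * m ≤ A0.card := hcand c hc
        have e3 : m * (s + 1) ≤ 2 * (m * s) := by nlinarith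
        have e4 : 47 * s * m = 47 * (m * s) := by ring
        omega
      have hms : 1 ≤ m * s := Nat.mul_pos hm hs
      have hAB : ∀ a ∈ A, ∀ c' ∈ S, a ≠ f c' ∧ ¬ G.Adj (f c') a := by
        intro a ha c' hc'
        have hn : a ∉ B' := (Finset.mem_sdiff.1 ha).2
        constructor
        · rintro rfl
          exact hn (Finset.mem_biUnion.2 ⟨c', hc', Finset.mem_insert_self _ _⟩)
        · intro hadj
          exact hn (Finset.mem_biUnion.2 ⟨c', hc',
            Finset.mem_insert_of_mem (Finset.mem_inter.2 ⟨mem_nbr.2 hadj, hAX ha⟩)⟩)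
      have hupd : ∀ a : V, ∀ c' ∈ S, Function.update f c a c' = f c' := by
        intro a c' hc'
        refine Function.update_of_ne ?_ _ _
        rintro rfl
        exact hcS hc'
      refine ⟨A, ?_, ?_, ?_⟩
      · refine Finset.card_pos.1 ?_
        omega
      · intro a ha
        have ha0 := Finset.mem_filter.1 (Finset.mem_sdiff.1 ha).1
        refine ⟨?_, ?_, ?_, ?_⟩
        · intro c' hc'
          rcases Finset.mem_insert.1 hc' with rfl | hc'
          · rw [Function.update_self]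
            exact ha0.1
          · rw [hupd a c' hc']
            exact f1 c' hc'
        · intro c' hc'
          rcases Finset.mem_insert.1 hc' with rfl | hc'
          · rw [Function.update_self]
            exact ha0.2
          · rw [hupd a c' hc']
            exact f2 c' hc'
        · intro c1 hc1 c2 hc2
          rcases Finset.mem_insert.1 hc1 with e1 | hc1'
          · rcases Finset.mem_insert.1 hc2 with e2 | hc2'
            · rw [e1, e2]
              exact G.loopless.irrefl _
            · rw [e1, Function.update_self, hupd a c2 hc2']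
              exact fun h => (hAB a ha c2 hc2').2 h.symm
          · rcases Finset.mem_insert.1 hc2 with e2 | hc2'
            · rw [e2, Function.update_self, hupd a c1 hc1']
              exact (hAB a ha c1 hc1').2
            · rw [hupd a c1 hc1', hupd a c2 hc2']
              exact f3 c1 hc1' c2 hc2'
        · intro c1 hc1 c2 hc2 h
          rw [Finset.mem_coe] at hc1 hc2
          rcases Finset.mem_insert.1 hc1 with e1 | hc1'
          · rcases Finset.mem_insert.1 hc2 with e2 | hc2'
            · rw [e1, e2]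
            · rw [e1, Function.update_self, hupd a c2 hc2'] at h
              exact absurd h (hAB a ha c2 hc2').1
          · rcases Finset.mem_insert.1 hc2 with e2 | hc2'
            · rw [e2, Function.update_self, hupd a c1 hc1'] at h
              exact absurd h.symm (hAB a ha c1 hc1').1
            · rw [hupd a c1 hc1', hupd a c2 hc2'] at h
              exact f4 hc1' hc2' h
      · rintro ⟨y, b⟩ hy
        have hyH : y ∉ H := (Finset.mem_filter.1 (Finset.mem_product.1 hy).1).2.1
        have hAr : (45 : ℝ) * (m * s) ≤ (A.card : ℝ) := by exact_mod_cast hAcard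
        cases b
        · have e1 : (A.filter (fun a => G.Adj a y)).card ≤ s := s3_adj G s H X A hAX hXs hyH
          have e2 : ((A.filter (fun a => G.Adj a y)).card : ℝ) ≤ (s : ℝ) := by
            exact_mod_cast e1
          have e3 : (s : ℝ) ≤ 1 / (45 * m) * (A.card : ℝ) := by
            rw [one_div, ← div_eq_inv_mul, le_div_iff₀ (by positivity)]
            linarith
          exact e2.trans e3
        · have e1 : (A.filter (fun a => Near G H y a)).card ≤ m * s :=
            s3_near G m s H X A hAX hdeg hXs hyH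
          have e2 : ((A.filter (fun a => Near G H y a)).card : ℝ) ≤ (m * s : ℝ) := by
            exact_mod_cast e1
          have e3 : (m * s : ℝ) ≤ 1 / 45 * (A.card : ℝ) := by linarith
          exact e2.trans e3)
  refine ⟨x, h1, h2, h3, h4, ?_⟩
  intro y hyH hy
  have hyJ : ∀ b : Bool, ((y, b) : V × Bool) ∈ J := fun b =>
    Finset.mem_product.2 ⟨Finset.mem_filter.2 ⟨Finset.mem_univ _, hyH, hy⟩, Finset.mem_univ _⟩
  have h9 : (J.card : ℝ) ≤ 1200 * (m : ℝ) ^ 3 := by exact_mod_cast hJcard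
  have hCr : (Cs.card : ℝ) ≤ (m : ℝ) := by exact_mod_cast hCs
  have hpn : ∀ p, (0 : ℝ) ≤ ∏ _c ∈ Cs, (1 + ρ p / 10) := fun p =>
    Finset.prod_nonneg (fun _ _ => by have := hρ p; positivity)
  constructor
  · have h6 : (11 / 10 : ℝ) ^ (mates G H Cs x y).card ≤ J.card * ∏ _c ∈ Cs, (1 + ρ (y, true) / 10) :=
      h5 (y, true) (hyJ true)
    have h7 : ∏ _c ∈ Cs, (1 + ρ (y, true) / 10) ≤ Real.exp (((1 / 45 : ℝ) * m) / 10) := by
      refine prod_le_exp Cs Cs (Finset.Subset.refl _) (fun _ => ρ (y, true))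
        (fun _ => hρ _) _ ?_
      rw [Finset.sum_const, nsmul_eq_mul]
      have e : ρ (y, true) = 1 / 45 := rfl
      rw [e]
      linarith
    have h10 : ((1 / 45 : ℝ) * m) / 10 = (1 / 450) * m := by ring
    rw [h10] at h7
    exact hload _ (h6.trans (mul_le_mul h9 h7 (hpn _) (by positivity)))
  · have h6 : (11 / 10 : ℝ) ^ (rank G Cs x y) ≤ J.card * ∏ _c ∈ Cs, (1 + ρ (y, false) / 10) :=
      h5 (y, false) (hyJ false)
    have h7 : ∏ _c ∈ Cs, (1 + ρ (y, false) / 10) ≤ Real.exp ((10 : ℝ) / 10) := by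
      refine prod_le_exp Cs Cs (Finset.Subset.refl _) (fun _ => ρ (y, false))
        (fun _ => hρ _) _ ?_
      rw [Finset.sum_const, nsmul_eq_mul]
      have e : ρ (y, false) = 1 / (45 * m) := rfl
      rw [e, ← div_eq_mul_one_div, div_le_iff₀ (by positivity)]
      nlinarith
    have h10 : (10 : ℝ) / 10 = 1 := by norm_num
    rw [h10] at h7
    exact hload' _ (h6.trans (mul_le_mul h9 h7 (hpn _) (by positivity)))

end Pool.Agent.Helper95.BD
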