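import Pool.Agent.Helper95.BC.B

/-!
# The candidates
-/

set_option autoImplicit false

namespace Pool.Agent.Helper95.BD

open Pool.Agent.Helper95.BC

open Classical in
/-- the vertices with two neighbours of the same colour in `H` -/
theorem card_two {V C : Type} [Fintype V] {G : SimpleGraph V} (hC4 : C4Free G) (H : Finset V)
    (κ : V → C) :
    (Finset.univ.filter (fun x => ∃ h ∈ H, ∃ h' ∈ H, G.Adj x h ∧ G.Adj x h' ∧ h ≠ h' ∧
      κ h = κ h')).card ≤ ((H ×ˢ H).filter (fun p => p.1 ≠ p.2 ∧ κ p.1 = κ p.2)).card := by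
  by_cases hV : Nonempty V
  · obtain ⟨v0⟩ := hV
    have hch : ∀ x : V, ∃ p : V × V, (∃ h ∈ H, ∃ h' ∈ H, G.Adj x h ∧ G.Adj x h' ∧ h ≠ h' ∧
        κ h = κ h') →
        p.1 ∈ H ∧ p.2 ∈ H ∧ G.Adj x p.1 ∧ G.Adj x p.2 ∧ p.1 ≠ p.2 ∧ κ p.1 = κ p.2 := by
      intro x
      by_cases hx : ∃ h ∈ H, ∃ h' ∈ H, G.Adj x h ∧ G.Adj x h' ∧ h ≠ h' ∧ κ h = κ h'
      · obtain ⟨h, h1, h', h2, h3⟩ := hx
        exact ⟨(h, h'), fun _ => ⟨h1, h2, h3⟩⟩
      · exact ⟨(v0, v0), fun h => absurd h hx⟩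
    choose F hF using hch
    refine Finset.card_le_card_of_injOn F ?_ ?_
    · intro x hx
      have hx' : x ∈ Finset.univ.filter (fun x => ∃ h ∈ H, ∃ h' ∈ H, G.Adj x h ∧ G.Adj x h' ∧
        h ≠ h' ∧ κ h = κ h') := hx
      obtain ⟨h1, h2, _, _, h3, h4⟩ := hF x (Finset.mem_filter.1 hx').2
      exact Finset.mem_coe.2 (Finset.mem_filter.2 ⟨Finset.mem_product.2 ⟨h1, h2⟩, h3, h4⟩)
    · intro x hx y hy h
      have hx' : x ∈ Finset.univ.filter (fun x => ∃ h ∈ H, ∃ h' ∈ H, G.Adj x h ∧ G.Adj x h' ∧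
        h ≠ h' ∧ κ h = κ h') := hx
      have hy' : y ∈ Finset.univ.filter (fun x => ∃ h ∈ H, ∃ h' ∈ H, G.Adj x h ∧ G.Adj x h' ∧
        h ≠ h' ∧ κ h = κ h') := hy
      obtain ⟨_, _, h1, h2, h3, _⟩ := hF x (Finset.mem_filter.1 hx').2
      obtain ⟨_, _, h4, h5, _, _⟩ := hF y (Finset.mem_filter.1 hy').2
      rw [← h] at h4 h5
      by_contra hne
      exact hC4 x y (F x).1 (F x).2 hne h3 h1 h4.symm h5 h2.symm
  · have : (Finset.univ.filter (fun x => ∃ h ∈ H, ∃ h' ∈ H, G.Adj x h ∧ G.Adj x h' ∧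
        h ≠ h' ∧ κ h = κ h')) = ∅ := by
      refine Finset.filter_eq_empty_iff.2 ?_
      intro x
      exact absurd ⟨x⟩ hV
    rw [this]
    exact Nat.zero_le _

open Classical in
/-- the vertices with more than `4 √m` neighbours in `H` -/
theorem card_many {V : Type} [Fintype V] {G : SimpleGraph V} (hC4 : C4Free G) (H : Finset V)
    {m : ℕ} (hm : 1 ≤ m) (hH : H.card ≤ m + 2) :
    (Finset.univ.filter (fun x => 16 * m < (H.filter (fun h => G.Adj x h)).card ^ 2)).card ≤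
      Nat.sqrt m + 1 := by
  set w := Nat.sqrt m with hw
  have hw1 : w * w ≤ m := Nat.sqrt_le m
  have hw2 : m < (w + 1) * (w + 1) := Nat.lt_succ_sqrt m
  have hw0 : 1 ≤ w := by
    by_contra h
    have : w = 0 := by omega
    rw [this] at hw2
    omega
  by_contra hlt
  rw [not_le] at hlt
  obtain ⟨S, hS, hSt⟩ := Finset.exists_subset_card_eq hlt.le
  have h1 := sum_card_le_biUnion S (fun x => nbr G x ∩ H) (by
    intro x _ y _ hxy
    refine (Finset.card_le_card ?_).trans (hC4.card_le_one hxy)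
    intro z hz
    simp only [Finset.mem_inter] at hz ⊢
    exact ⟨hz.1.1, hz.2.1⟩)
  have h2 : (S.biUnion (fun x => nbr G x ∩ H)).card ≤ m + 2 := by
    refine (Finset.card_le_card ?_).trans hH
    intro z hz
    obtain ⟨x, _, hx⟩ := Finset.mem_biUnion.1 hz
    exact (Finset.mem_inter.1 hx).2
  have h3 : S.card * (4 * w + 1) ≤ ∑ x ∈ S, (nbr G x ∩ H).card := by
    rw [← smul_eq_mul]
    refine Finset.card_nsmul_le_sum _ _ _ fun x hx => ?_
    have h4 := (Finset.mem_filter.1 (hS hx)).2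
    have h5 : (H.filter (fun h => G.Adj x h)).card ≤ (nbr G x ∩ H).card := by
      refine Finset.card_le_card fun z hz => ?_
      rw [Finset.mem_filter] at hz
      rw [Finset.mem_inter, mem_nbr]
      exact ⟨hz.2, hz.1⟩
    by_contra h6
    have h7 : (H.filter (fun h => G.Adj x h)).card ≤ 4 * w := by omega
    have h8 : (H.filter (fun h => G.Adj x h)).card ^ 2 ≤ (4 * w) ^ 2 := Nat.pow_le_pow_left h7 2
    nlinarith
  rw [hSt] at h1 h3
  nlinarith

open Classical in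
theorem candidates : ∃ m₀ : ℕ, ∀ m : ℕ, m₀ ≤ m → ∀ (V C : Type) [Fintype V] (G : SimpleGraph V)
    (H D : Finset V) (κ : V → C) (s : ℕ), 1 ≤ s → C4Free G → H.card ≤ m + 2 →
    ((H ×ˢ H).filter (fun p => p.1 ≠ p.2 ∧ κ p.1 = κ p.2)).card ≤ 4 →
    (∀ v, v ∉ H → (nbr G v ∩ D).card ≤ s) →
    ∃ X ⊆ D, D.card ≤ X.card + 2 * s * m ∧
      (∀ x ∈ X, ∀ h ∈ H, ∀ h' ∈ H, G.Adj x h → G.Adj x h' → h ≠ h' → κ h ≠ κ h') ∧
      (∀ x ∈ X, (H.filter (fun h => G.Adj x h)).card ^ 2 ≤ 16 * m) ∧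
      ∀ x ∈ X, ∀ v, v ∉ H → G.Adj x v → 1000 * (H.filter (fun h => G.Adj v h)).card ≤ m := by
  refine ⟨16000001, fun m hm V C _ G H D κ s hs hC4 hH hκ hdeg => ?_⟩
  have hm' : (16000001 : ℝ) ≤ m := by exact_mod_cast hm
  set R₁ : Finset V := Finset.univ.filter (fun x => ∃ h ∈ H, ∃ h' ∈ H, G.Adj x h ∧ G.Adj x h' ∧
    h ≠ h' ∧ κ h = κ h') with hR₁
  have h1 : R₁.card ≤ 4 := (card_two hC4 H κ).trans hκ
  set R₂ : Finset V := Finset.univ.filter (fun x =>
    16 * m < (H.filter (fun h => G.Adj x h)).card ^ 2) with hR₂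
  have h2 : R₂.card ≤ Nat.sqrt m + 1 := card_many hC4 H (by omega) hH
  set B : Finset V := Finset.univ.filter (fun v => v ∉ H ∧
    m < 1000 * (H.filter (fun h => G.Adj v h)).card) with hB
  have hBt : B.card ≤ 4000 := by
    have h2 := card_big hC4 H (m + 2) 4000 (2 / 1000) hH (by norm_num) (by omega)
    refine (Finset.card_le_card ?_).trans h2
    intro v hv
    rw [hB, Finset.mem_filter] at hv
    rw [Finset.mem_filter]
    refine ⟨Finset.mem_univ _, ?_⟩
    have h3 : H.filter (fun h => G.Adj v h) ⊆ nbr G v ∩ H := by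
      intro w hw
      rw [Finset.mem_filter] at hw
      rw [Finset.mem_inter, mem_nbr]
      exact ⟨hw.2, hw.1⟩
    have h4 := Finset.card_le_card h3
    have h5 : m < 1000 * (nbr G v ∩ H).card := by
      have := hv.2.2
      omega
    have h6 : (m : ℝ) < 1000 * ((nbr G v ∩ H).card : ℝ) := by exact_mod_cast h5
    push_cast
    linarith
  set R₃ : Finset V := B.biUnion (fun v => nbr G v ∩ D) with hR₃
  have h3 : R₃.card ≤ 4000 * s := by
    have h3 : R₃.card ≤ ∑ v ∈ B, (nbr G v ∩ D).card := Finset.card_biUnion_le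
    have h4 : ∑ v ∈ B, (nbr G v ∩ D).card ≤ ∑ _v ∈ B, s := by
      refine Finset.sum_le_sum fun v hv => ?_
      have h5 : v ∉ H := by
        rw [hB, Finset.mem_filter] at hv
        exact hv.2.1
      exact hdeg v h5
    rw [Finset.sum_const, smul_eq_mul] at h4
    have h5 : B.card * s ≤ 4000 * s := Nat.mul_le_mul_right s hBt
    omega
  refine ⟨D \ (R₁ ∪ R₂ ∪ R₃), Finset.sdiff_subset, ?_, ?_, ?_, ?_⟩
  · have h4 := Finset.card_le_card_sdiff_add_card (s := D) (t := R₁ ∪ R₂ ∪ R₃)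
    have h5 := Finset.card_union_le (R₁ ∪ R₂) R₃
    have h6 := Finset.card_union_le R₁ R₂
    have hw1 : Nat.sqrt m * Nat.sqrt m ≤ m := Nat.sqrt_le m
    have hw5 : 5 ≤ Nat.sqrt m := Nat.le_sqrt.2 (by omega)
    have h7 : Nat.sqrt m + 5 ≤ m := by nlinarith
    have h8 : 4000 * s ≤ s * m := by
      rw [mul_comm]
      exact Nat.mul_le_mul_left s (by omega)
    have h9 : m ≤ s * m := Nat.le_mul_of_pos_left m hs
    have h10 : 2 * s * m = s * m + s * m := by ring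
    omega
  · intro x hx h hh h' hh' h4 h5 hne hk
    have h6 := (Finset.mem_sdiff.1 hx).2
    refine h6 (Finset.mem_union_left _ (Finset.mem_union_left _ ?_))
    rw [hR₁, Finset.mem_filter]
    exact ⟨Finset.mem_univ _, h, hh, h', hh', h4, h5, hne, hk⟩
  · intro x hx
    by_contra hlt
    have h6 := (Finset.mem_sdiff.1 hx).2
    refine h6 (Finset.mem_union_left _ (Finset.mem_union_right _ ?_))
    rw [hR₂, Finset.mem_filter]
    exact ⟨Finset.mem_univ _, not_le.1 hlt⟩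
  · intro x hx v hv hxv
    by_contra hlt
    have hx' := Finset.mem_sdiff.1 hx
    refine hx'.2 (Finset.mem_union_right _ ?_)
    rw [hR₃, Finset.mem_biUnion]
    refine ⟨v, ?_, ?_⟩
    · rw [hB, Finset.mem_filter]
      exact ⟨Finset.mem_univ _, hv, by omega⟩
    · rw [Finset.mem_inter, mem_nbr]
      exact ⟨hxv.symm, hx'.1⟩

end Pool.Agent.Helper95.BD
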