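import Pool.Agent.Helper95.BD.S0

/-!
# Stage two: counting in the neighbourhood of a centre
-/

set_option autoImplicit false

namespace Pool.Agent.Helper95.BD

open Pool.Agent.Helper95.BC

section

variable {V C : Type} [Fintype V] [Fintype C] {G : SimpleGraph V} {m : ℕ}
  {H : Finset V} {κ : V → C} {Cs : Finset C} {x : C → V}

open Classical in
/-- the neighbours of `x c` which are shared -/
noncomputable def shrs (G : SimpleGraph V) (H : Finset V) (Cs : Finset C) (x : C → V)
    (c : C) : Finset V :=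
  Finset.univ.filter (fun z => Shared G H Cs x z ∧ G.Adj (x c) z)

open Classical in
/-- the neighbours of `x c` in `H` -/
noncomputable def hns (G : SimpleGraph V) (H : Finset V) (x : C → V) (c : C) : Finset V :=
  H.filter (fun h => G.Adj (x c) h)

omit [Fintype C] in
theorem mem_shrs {c : C} {z : V} :
    z ∈ shrs G H Cs x c ↔ Shared G H Cs x z ∧ G.Adj (x c) z := by
  classical
  simp [shrs]

omit [Fintype V] [Fintype C] in
theorem mem_hns {c : C} {z : V} : z ∈ hns G H x c ↔ z ∈ H ∧ G.Adj (x c) z := by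
  classical
  simp [hns]

theorem Stars.nbr_split (hS : Stars G m H κ Cs x) {c : C} (hc : c ∈ Cs) :
    (nbr G (x c)).card =
      (hns G H x c).card + (shrs G H Cs x c).card + (privs G H Cs x c).card := by
  classical
  have e : nbr G (x c) = (hns G H x c ∪ shrs G H Cs x c) ∪ privs G H Cs x c := by
    ext v
    rw [mem_nbr, Finset.mem_union, Finset.mem_union, mem_hns, mem_shrs, mem_privs]
    constructor
    · intro h
      by_cases hv : v ∈ H
      · exact Or.inl (Or.inl ⟨hv, h⟩)
      · rcases hS.shared_or_priv hc hv h with h1 | h1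
        · exact Or.inl (Or.inr ⟨h1, h⟩)
        · exact Or.inr h1
    · rintro ((h | h) | h)
      · exact h.2
      · exact h.2
      · exact h.2.1
  have d1 : Disjoint (hns G H x c) (shrs G H Cs x c) := by
    rw [Finset.disjoint_left]
    intro v h1 h2
    rw [mem_hns] at h1
    rw [mem_shrs] at h2
    exact h2.1.1 h1.1
  have d2 : Disjoint (hns G H x c ∪ shrs G H Cs x c) (privs G H Cs x c) := by
    rw [Finset.disjoint_left]
    intro v h1 h2
    rw [mem_privs] at h2
    rw [Finset.mem_union, mem_hns, mem_shrs] at h1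
    rcases h1 with h1 | h1
    · exact h2.1 h1.1
    · exact h1.1.not_priv h2
  rw [e, Finset.card_union_of_disjoint d2, Finset.card_union_of_disjoint d1]

theorem Stars.hns_card (hS : Stars G m H κ Cs x) (hm : 16000000 ≤ m) {c : C} (hc : c ∈ Cs) :
    1000 * (hns G H x c).card ≤ m := by
  have h := hS.xh c hc
  change (hns G H x c).card ^ 2 ≤ 16 * m at h
  by_contra hlt
  push Not at hlt
  have h1 : (m : ℤ) + 1 ≤ 1000 * ((hns G H x c).card : ℤ) := by exact_mod_cast hlt
  have h2 : ((hns G H x c).card : ℤ) ^ 2 ≤ 16 * m := by exact_mod_cast h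
  have h3 : (16000000 : ℤ) ≤ m := by exact_mod_cast hm
  nlinarith

theorem Stars.shrs_card (hS : Stars G m H κ Cs x) {c : C} (hc : c ∈ Cs) :
    40 * (shrs G H Cs x c).card ≤ m := by
  classical
  have h1 := hS.item_nbrs (x c)
  have h2 := hS.xm c hc
  have h3 : (shrs G H Cs x c).card ≤ (Finset.univ.filter (fun w => w ∉ H ∧ G.Adj (x c) w ∧
      ∃ c' ∈ Cs, x c' ≠ x c ∧ G.Adj (x c') w)).card := by
    apply Finset.card_le_card
    intro z hz
    rw [mem_shrs] at hz
    rw [Finset.mem_filter]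
    obtain ⟨⟨hzH, c1, h1, c2, h2, hne, h3, h4⟩, h5⟩ := hz
    refine ⟨Finset.mem_univ _, hzH, h5, ?_⟩
    by_cases hc1 : c1 = c
    · refine ⟨c2, h2, ?_, h4⟩
      intro h
      exact hne (hc1.trans (hS.xinj h2 hc h).symm)
    · refine ⟨c1, h1, ?_, h3⟩
      intro h
      exact hc1 (hS.xinj h1 hc h)
  omega

/-- D7a: counting in N(x c) -/
theorem Stars.needs_card (hS : Stars G m H κ Cs x) {f : V → C} (hf : SharedCol G H κ Cs x f)
    {c : C} (hc : c ∈ Cs) :
    (privs G H Cs x c).card = (needs G H κ Cs x f c).card := by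
  classical
  have hsp := hS.nbr_split hc
  have hd := hS.xdeg c hc
  have hC := hS.cardC
  obtain ⟨I1, hI1⟩ : ∃ I1, I1 = (hns G H x c).image κ := ⟨_, rfl⟩
  obtain ⟨I2, hI2⟩ : ∃ I2, I2 = (shrs G H Cs x c).image f := ⟨_, rfl⟩
  have c1 : I1.card = (hns G H x c).card := by
    rw [hI1, Finset.card_image_of_injOn]
    intro a ha b hb h
    rw [Finset.mem_coe, mem_hns] at ha hb
    by_contra hne
    exact hS.kinj c hc a ha.1 b hb.1 ha.2 hb.2 hne h
  have c2 : I2.card = (shrs G H Cs x c).card := by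
    rw [hI2, Finset.card_image_of_injOn]
    intro a ha b hb h
    rw [Finset.mem_coe, mem_shrs] at ha hb
    by_contra hne
    exact hf.row a b ha.1 hb.1 hne ⟨c, hc, ha.2, hb.2⟩ h
  have d1 : Disjoint I1 I2 := by
    rw [Finset.disjoint_left]
    intro a h1 h2
    rw [hI1, Finset.mem_image] at h1
    rw [hI2, Finset.mem_image] at h2
    obtain ⟨h, hh, rfl⟩ := h1
    obtain ⟨z, hz, hz2⟩ := h2
    rw [mem_hns] at hh
    rw [mem_shrs] at hz
    exact hf.hr z hz.1 c hc hz.2 h hh.1 hh.2 hz2
  have d2 : c ∉ I1 ∪ I2 := by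
    intro h
    rw [Finset.mem_union, hI1, hI2, Finset.mem_image, Finset.mem_image] at h
    rcases h with ⟨h, hh, hk⟩ | ⟨z, hz, hk⟩
    · rw [mem_hns] at hh
      exact hS.xk c hc h hh.1 hh.2 hk
    · rw [mem_shrs] at hz
      exact hf.cen z hz.1 c hc hz.2 hk
  have e : needs G H κ Cs x f c = Finset.univ \ insert c (I1 ∪ I2) := by
    ext a
    rw [mem_needs, Finset.mem_sdiff, Finset.mem_insert, Finset.mem_union, hI1, hI2,
      Finset.mem_image, Finset.mem_image]
    constructor
    · rintro ⟨h1, h2, h3⟩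
      refine ⟨Finset.mem_univ _, ?_⟩
      rintro (h | ⟨h, hh, hk⟩ | ⟨z, hz, hk⟩)
      · exact h1 h
      · rw [mem_hns] at hh
        exact h2 h hh.1 hh.2 hk.symm
      · rw [mem_shrs] at hz
        exact h3 z hz.1 hz.2 hk.symm
    · rintro ⟨_, h⟩
      refine ⟨fun h1 => h (Or.inl h1), ?_, ?_⟩
      · intro h' hh ha hk
        exact h (Or.inr (Or.inl ⟨h', mem_hns.2 ⟨hh, ha⟩, hk.symm⟩))
      · intro z hz ha hk
        exact h (Or.inr (Or.inr ⟨z, mem_shrs.2 ⟨hz, ha⟩, hk.symm⟩))
  have hu : (Finset.univ : Finset C).card = m := by rw [Finset.card_univ, hC]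
  have hi : (insert c (I1 ∪ I2)).card = 1 + (hns G H x c).card + (shrs G H Cs x c).card := by
    rw [Finset.card_insert_of_notMem d2, Finset.card_union_of_disjoint d1, c1, c2]
    omega
  rw [e, Finset.card_sdiff_of_subset (Finset.subset_univ _), hu, hi]
  omega

/-- at most m/1000 neighbours of x c are in H, at most m/40 are shared (other centre = a mate,
different for different z) -/
theorem Stars.privs_card (hS : Stars G m H κ Cs x) (hm : 16000000 ≤ m) {c : C} (hc : c ∈ Cs) :
    4 * m ≤ 5 * (privs G H Cs x c).card ∧ (privs G H Cs x c).card ≤ m := by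
  have h1 := hS.nbr_split hc
  have h2 := hS.xdeg c hc
  have h3 := hS.hns_card hm hc
  have h4 := hS.shrs_card hc
  constructor <;> omega

open Classical in
/-- D7a: at most m/1000 + m/40 + m/40: H-neighbours, shared neighbours, private neighbours of v (the
last two are among the item_nbrs of v, whose number is at most m/40 by item_nbrs and vm) -/
theorem Stars.forb_row (hS : Stars G m H κ Cs x) (hm : 1000 ≤ m) (f : V → C) (g : C → V → C)
    (S : Finset C) (hSC : S ⊆ Cs) {c : C} (hc : c ∈ Cs) {v : V} (hv : Priv G H Cs x c v)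
    (Q : Finset C) :
    (Q.filter (fun a => Forb G H κ Cs x f S g v a)).card ≤ m / 5 := by
  obtain ⟨N, hN⟩ : ∃ N : Finset V, N = Finset.univ.filter (fun w => w ∉ H ∧ G.Adj v w ∧
      ∃ c ∈ Cs, x c ≠ v ∧ G.Adj (x c) w) := ⟨_, rfl⟩
  have hNc : 40 * N.card ≤ m := by
    have h1 := hS.item_nbrs v
    have h2 := hS.vm c hc v hv.1 hv.2.1
    rw [← hN] at h1
    omega
  have hHc := hS.vH c hc v hv.1 hv.2.1
  obtain ⟨pc, hpc⟩ : ∃ pc : V → C, ∀ v' : V, ∀ c' ∈ Cs, Priv G H Cs x c' v' → pc v' = c' := by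
    refine ⟨fun v' => if h : ∃ c' ∈ Cs, Priv G H Cs x c' v' then h.choose else c, ?_⟩
    intro v' c' hc' hp
    have h : ∃ c' ∈ Cs, Priv G H Cs x c' v' := ⟨c', hc', hp⟩
    simp only [dif_pos h]
    exact hp.2.2 _ h.choose_spec.1 h.choose_spec.2.2.1
  have hsub : Q.filter (fun a => Forb G H κ Cs x f S g v a) ⊆
      ((H.filter (fun h => G.Adj v h)).image κ ∪ N.image f) ∪
        N.image (fun v' => g (pc v') v') := by
    intro a ha
    rw [Finset.mem_filter] at ha
    rw [Finset.mem_union, Finset.mem_union, Finset.mem_image, Finset.mem_image,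
      Finset.mem_image]
    rcases ha.2 with ⟨h, hh, h1, h2⟩ | ⟨z, hz, h1, h2⟩ | ⟨c', hc', v', hp, h1, h2⟩
    · exact Or.inl (Or.inl ⟨h, Finset.mem_filter.2 ⟨hh, h1⟩, h2⟩)
    · refine Or.inl (Or.inr ⟨z, ?_, h2⟩)
      rw [hN, Finset.mem_filter]
      obtain ⟨hzH, c1, g1, c2, g2, hne, g3, g4⟩ := hz
      exact ⟨Finset.mem_univ _, hzH, h1, c1, g1, hS.not_centre hc g1 hv.2.1, g3⟩
    · refine Or.inr ⟨v', ?_, ?_⟩
      · rw [hN, Finset.mem_filter]
        exact ⟨Finset.mem_univ _, hp.1, h1, c', hSC hc', hS.not_centre hc (hSC hc') hv.2.1,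
          hp.2.1⟩
      · rw [hpc v' c' (hSC hc') hp]
        exact h2
  have k1 := Finset.card_le_card hsub
  have k2 := Finset.card_union_le
    ((H.filter (fun h => G.Adj v h)).image κ ∪ N.image f) (N.image (fun v' => g (pc v') v'))
  have k3 := Finset.card_union_le ((H.filter (fun h => G.Adj v h)).image κ) (N.image f)
  have k4 : ((H.filter (fun h => G.Adj v h)).image κ).card ≤
    (H.filter (fun h => G.Adj v h)).card := Finset.card_image_le
  have k5 : (N.image f).card ≤ N.card := Finset.card_image_le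
  have k6 : (N.image (fun v' => g (pc v') v')).card ≤ N.card := Finset.card_image_le
  omega

end

end Pool.Agent.Helper95.BD
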