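import Pool.Agent.Helper95.BD.S0

/-!
# Stage two: the forbidden pairs in a column and the crossing edges
-/

set_option autoImplicit false

namespace Pool.Agent.Helper95.BD

open Pool.Agent.Helper95.BC

section

variable {V C : Type} [Fintype V] [Fintype C] {G : SimpleGraph V} {m : ℕ}
  {H : Finset V} {κ : V → C} {Cs : Finset C} {x : C → V}

open Classical in
/-- at most 2 + m/30 + m/7: each h with κ h = a has at most one common neighbour with x c; the
v with a shared neighbour z, f z = a (v determined by z); the v with a private neighbour v' in the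
row c' ∈ S, g c' v' = a (v' determined by c' by RowOK.inj, v determined by v') -/
theorem Stars.forb_col (hS : Stars G m H κ Cs x) (hm : 1000 ≤ m) (f : V → C) (g : C → V → C)
    (S : Finset C) (hSC : S ⊆ Cs) (hrow : ∀ c' ∈ S, RowOK G H κ Cs x f c' (g c'))
    {c : C} (hc : c ∈ Cs) (a : C)
    (hload1 : 30 * (Finset.univ.filter
        (fun z => Shared G H Cs x z ∧ f z = a ∧ c ∈ mates G H Cs x z)).card ≤ m)
    (hload2 : 7 * (S.filter (fun c' => Hit G H Cs x c' (g c') (c, a))).card ≤ m) :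
    ((privs G H Cs x c).filter (fun v => Forb G H κ Cs x f S g v a)).card ≤ m / 5 := by
  set P := privs G H Cs x c with hP
  set T1 := P.filter (fun v => ∃ h ∈ H, G.Adj v h ∧ κ h = a) with hT1
  set T2 := P.filter (fun v => ∃ z, Shared G H Cs x z ∧ G.Adj v z ∧ f z = a) with hT2
  set T3 := P.filter (fun v => ∃ c' ∈ S, ∃ v', Priv G H Cs x c' v' ∧ G.Adj v v' ∧ g c' v' = a)
    with hT3
  have hsub : P.filter (fun v => Forb G H κ Cs x f S g v a) ⊆ T1 ∪ (T2 ∪ T3) := by
    intro v hv
    obtain ⟨hvP, hv⟩ := Finset.mem_filter.1 hv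
    rcases hv with h | h | h
    · exact Finset.mem_union_left _ (Finset.mem_filter.2 ⟨hvP, h⟩)
    · exact Finset.mem_union_right _ (Finset.mem_union_left _ (Finset.mem_filter.2 ⟨hvP, h⟩))
    · exact Finset.mem_union_right _ (Finset.mem_union_right _ (Finset.mem_filter.2 ⟨hvP, h⟩))
  have h1 : T1.card ≤ (H.filter (fun h => κ h = a)).card := by
    refine Finset.card_le_card_of_forall_subsingleton (fun v h => h ∈ H ∧ G.Adj v h) ?_ ?_
    · intro v hv
      obtain ⟨hvP, h, hh, h2, h3⟩ := Finset.mem_filter.1 hv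
      exact ⟨h, Finset.mem_filter.2 ⟨hh, h3⟩, hh, h2⟩
    · rintro h - v ⟨hv, hh, h2⟩ v' ⟨hv', _, h2'⟩
      refine hS.unique (y := x c) (y' := h) ?_ (mem_privs.1 (Finset.mem_filter.1 hv).1).2.1
        h2.symm (mem_privs.1 (Finset.mem_filter.1 hv').1).2.1 h2'.symm
      rintro rfl
      exact hS.xH c hc hh
  have h1' := hS.kcol a
  have h2 : T2.card ≤ (Finset.univ.filter
      (fun z => Shared G H Cs x z ∧ f z = a ∧ c ∈ mates G H Cs x z)).card := by
    have hne : ∀ z, Shared G H Cs x z → x c ≠ z := by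
      rintro z ⟨_, c1, hc1, _, _, _, h3, _⟩
      exact hS.not_centre hc1 hc h3
    refine Finset.card_le_card_of_forall_subsingleton (fun v z => Shared G H Cs x z ∧ G.Adj v z)
      ?_ ?_
    · intro v hv
      obtain ⟨hvP, z, hz, h2, h3⟩ := Finset.mem_filter.1 hv
      refine ⟨z, Finset.mem_filter.2 ⟨Finset.mem_univ _, hz, h3, ?_⟩, hz, h2⟩
      rw [mem_mates]
      exact ⟨hc, hne z hz, v, (mem_privs.1 hvP).1, h2.symm, (mem_privs.1 hvP).2.1.symm⟩
    · rintro z - v ⟨hv, hz, h2⟩ v' ⟨hv', _, h2'⟩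
      exact hS.unique (hne z hz) (mem_privs.1 (Finset.mem_filter.1 hv).1).2.1 h2.symm
        (mem_privs.1 (Finset.mem_filter.1 hv').1).2.1 h2'.symm
  have h3 : T3.card ≤ (S.filter (fun c' => Hit G H Cs x c' (g c') (c, a))).card := by
    refine Finset.card_le_card_of_forall_subsingleton
      (fun v c' => ∃ v', Priv G H Cs x c' v' ∧ G.Adj v v' ∧ g c' v' = a) ?_ ?_
    · intro v hv
      obtain ⟨hvP, c', hc', v', h4, h5, h6⟩ := Finset.mem_filter.1 hv
      exact ⟨c', Finset.mem_filter.2 ⟨hc', v', h4, h6, v, mem_privs.1 hvP, h5.symm⟩,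
        v', h4, h5, h6⟩
    · rintro c' hc' v ⟨hv, v1, h4, h5, h6⟩ v' ⟨hv', v2, h4', h5', h6'⟩
      have hcS := (Finset.mem_filter.1 hc').1
      have e : v1 = v2 := by
        by_contra hne
        exact (hrow c' hcS).inj v1 v2 h4 h4' hne (h6.trans h6'.symm)
      subst e
      exact hS.unique (hS.not_centre (hSC hcS) hc h4.2.1)
        (mem_privs.1 (Finset.mem_filter.1 hv).1).2.1 h5.symm
        (mem_privs.1 (Finset.mem_filter.1 hv').1).2.1 h5'.symm
  have h4 := (Finset.card_le_card hsub).trans (Finset.card_union_le _ _)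
  have h5 := Finset.card_union_le T2 T3
  omega

/-- v ↦ its neighbour v' in the row c' is injective on each row c, and c ∈ mates v' -/
theorem Stars.cross_sum (hS : Stars G m H κ Cs x) {c' : C} (hc' : c' ∈ Cs) :
    40 * ∑ c ∈ Cs, cross G H Cs x c c' ≤ m * m := by
  classical
  have h1 : ∀ c ∈ Cs, cross G H Cs x c c' ≤
      ((privs G H Cs x c').filter (fun v' => c ∈ mates G H Cs x v')).card := by
    intro c hc
    unfold cross
    refine Finset.card_le_card_of_forall_subsingleton
      (fun v v' => Priv G H Cs x c' v' ∧ G.Adj v v') ?_ ?_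
    · intro v hv
      obtain ⟨hvP, v', h4, h5⟩ := Finset.mem_filter.1 hv
      refine ⟨v', Finset.mem_filter.2 ⟨mem_privs.2 h4, ?_⟩, h4, h5⟩
      rw [mem_mates]
      exact ⟨hc, hS.not_centre hc' hc h4.2.1, v, (mem_privs.1 hvP).1, h5.symm,
        (mem_privs.1 hvP).2.1.symm⟩
    · rintro v' - v ⟨hv, h4, h5⟩ v1 ⟨hv1, _, h5'⟩
      exact hS.unique (hS.not_centre hc' hc h4.2.1)
        (mem_privs.1 (Finset.mem_filter.1 hv).1).2.1 h5.symm
        (mem_privs.1 (Finset.mem_filter.1 hv1).1).2.1 h5'.symm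
  have h2 : ∑ c ∈ Cs, ((privs G H Cs x c').filter (fun v' => c ∈ mates G H Cs x v')).card =
      ∑ v' ∈ privs G H Cs x c', (Cs.filter (fun c => c ∈ mates G H Cs x v')).card :=
    Finset.sum_card_bipartiteAbove_eq_sum_card_bipartiteBelow
      (fun c v' => c ∈ mates G H Cs x v')
  have h3 : ∀ v' ∈ privs G H Cs x c',
      40 * (Cs.filter (fun c => c ∈ mates G H Cs x v')).card ≤ m := by
    intro v' hv'
    obtain ⟨h4, h5, _⟩ := mem_privs.1 hv'
    refine le_trans (Nat.mul_le_mul_left _ (Finset.card_le_card ?_)) (hS.vm c' hc' v' h4 h5)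
    intro c hcc
    exact (Finset.mem_filter.1 hcc).2
  have h4 : (privs G H Cs x c').card ≤ m := by
    have h5 : privs G H Cs x c' ⊆ nbr G (x c') := by
      intro v hv
      exact mem_nbr.2 (mem_privs.1 hv).2.1
    have h6 := Finset.card_le_card h5
    have h7 := hS.xdeg c' hc'
    omega
  calc 40 * ∑ c ∈ Cs, cross G H Cs x c c'
      ≤ 40 * ∑ v' ∈ privs G H Cs x c', (Cs.filter (fun c => c ∈ mates G H Cs x v')).card := by
        rw [← h2]
        exact Nat.mul_le_mul_left _ (Finset.sum_le_sum h1)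
    _ = ∑ v' ∈ privs G H Cs x c', 40 * (Cs.filter (fun c => c ∈ mates G H Cs x v')).card := by
        rw [Finset.mul_sum]
    _ ≤ ∑ _v' ∈ privs G H Cs x c', m := Finset.sum_le_sum h3
    _ = (privs G H Cs x c').card * m := by rw [Finset.sum_const, smul_eq_mul]
    _ ≤ m * m := Nat.mul_le_mul_right _ h4

end

end Pool.Agent.Helper95.BD
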