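import Pool.Agent.Helper95.BC.S1
import Pool.Agent.Helper95.BC.S2
import Pool.Agent.Helper95.BD.S7a
import Pool.Agent.Helper95.BD.S7b

/-!
# Stage two: the colouring of the private vertices
-/

set_option autoImplicit false

namespace Pool.Agent.Helper95.BD

open Pool.Agent.Helper95.BC

section

variable {V C : Type} [Fintype V] [Fintype C] {G : SimpleGraph V} {m : ℕ}
  {H : Finset V} {κ : V → C} {Cs : Finset C} {x : C → V}

omit [Fintype V] [Fintype C] in
/-- the row `c` is coloured by `a` and the rows in `S` by `g` -/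
theorem good_step {f : V → C} {S : Finset C} {g : C → V → C}
    (hg : (∀ c ∈ S, RowOK G H κ Cs x f c (g c)) ∧ ∀ c ∈ S, ∀ c' ∈ S, PairOK G H Cs x g c c')
    {c : C} (hcS : c ∉ S) {a : V → C}
    (h1 : ∀ v v', Priv G H Cs x c v → Priv G H Cs x c v' → v ≠ v' → a v ≠ a v')
    (h2 : ∀ v, Priv G H Cs x c v → a v ≠ c ∧ (∀ h ∈ H, G.Adj (x c) h → a v ≠ κ h) ∧
      ∀ z, Shared G H Cs x z → G.Adj (x c) z → a v ≠ f z)
    (h3 : ∀ v, Priv G H Cs x c v → ¬ Forb G H κ Cs x f S g v (a v)) (g' : C → V → C)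
    (hg' : ∀ c' ∈ S, g' c' = g c') (hg'' : g' c = a) {T : Finset C}
    (hT : ∀ c' ∈ T, c' = c ∨ c' ∈ S) :
    (∀ c ∈ T, RowOK G H κ Cs x f c (g' c)) ∧ ∀ c ∈ T, ∀ c' ∈ T, PairOK G H Cs x g' c c' := by
  have hcross : ∀ c' ∈ S, ∀ v v', Priv G H Cs x c v → Priv G H Cs x c' v' → G.Adj v v' →
      a v ≠ g c' v' := by
    intro c' hc' v v' hv hv' hadj heq
    exact h3 v hv (Or.inr (Or.inr ⟨c', hc', v', hv', hadj, heq.symm⟩))
  refine ⟨?_, ?_⟩
  · intro c1 hc1
    rcases hT c1 hc1 with rfl | h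
    · rw [hg'']
      refine ⟨fun v hv => (h2 v hv).1, fun v hv => (h2 v hv).2.1, fun v hv => (h2 v hv).2.2,
        fun v hv h hh hadj heq => h3 v hv (Or.inl ⟨h, hh, hadj, heq.symm⟩),
        fun v hv z hz hadj heq => h3 v hv (Or.inr (Or.inl ⟨z, hz, hadj, heq.symm⟩)), h1⟩
    · rw [hg' c1 h]
      exact hg.1 c1 h
  · intro c1 hc1 c2 hc2 v v' hv hv' hadj
    rcases hT c1 hc1 with h4 | h4
    · subst h4
      rcases hT c2 hc2 with h5 | h5
      · subst h5
        rw [hg'']
        exact h1 v v' hv hv' hadj.ne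
      · rw [hg'', hg' c2 h5]
        exact hcross c2 h5 v v' hv hv' hadj
    · rcases hT c2 hc2 with h5 | h5
      · subst h5
        rw [hg'', hg' c1 h4]
        exact (hcross c1 h4 v' v hv' hv hadj.symm).symm
      · rw [hg' c1 h4, hg' c2 h5]
        exact hg.2 c1 h4 c2 h5 v v' hv hv' hadj

/-- the sum of the rates -/
theorem Stars.rate_sum (hS : Stars G m H κ Cs x) (hm : 1000 ≤ m) {c' : C} (hc' : c' ∈ Cs) :
    ∑ c ∈ Cs, (cross G H Cs x c c' : ℝ) / ((m / 5 : ℕ) : ℝ) ≤ (51 / 400) * m := by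
  have h1 := hS.cross_sum hc'
  have h2 : (40 : ℝ) * ∑ c ∈ Cs, (cross G H Cs x c c' : ℝ) ≤ (m : ℝ) * m := by
    exact_mod_cast h1
  have h3 : m ≤ 5 * (m / 5) + 4 := by omega
  have h4 : (m : ℝ) ≤ 5 * ((m / 5 : ℕ) : ℝ) + 4 := by exact_mod_cast h3
  have h5 : (1000 : ℝ) ≤ m := by exact_mod_cast hm
  have h6 : (0 : ℝ) < ((m / 5 : ℕ) : ℝ) := by linarith
  rw [← Finset.sum_div, div_le_iff₀ h6]
  have h7 : (m : ℝ) * (10 * m) ≤ m * (51 * ((m / 5 : ℕ) : ℝ)) :=
    mul_le_mul_of_nonneg_left (by linarith) (by linarith)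
  nlinarith

open Classical in
/-- D7c: greedy_gen with ι = C, α = V → C, I = Cs, key = 0, J = Cs ×ˢ univ, hit c g p = Hit c g p,
ρ c (c', a) = cross c c' / s, s = m / 5, A = the matchings of disjoint_matchings,
Good S g = (∀ c ∈ S, RowOK c (g c)) ∧ ∀ c ∈ S, ∀ c' ∈ S, PairOK g c c' -/
theorem stage_two (hS : Stars G m H κ Cs x) (hm : 16000000 ≤ m) (f : V → C)
    (hf : SharedCol G H κ Cs x f)
    (hload1 : ∀ c ∈ Cs, ∀ a : C, 30 * (Finset.univ.filter
        (fun z => Shared G H Cs x z ∧ f z = a ∧ c ∈ mates G H Cs x z)).card ≤ m)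
    (hload : ∀ t : ℕ, (11 / 10 : ℝ) ^ t ≤ 1 * (m : ℝ) ^ 2 * Real.exp ((51 / 4000) * m) →
      7 * t ≤ m) :
    ∃ g : C → V → C, (∀ c ∈ Cs, RowOK G H κ Cs x f c (g c)) ∧
      ∀ c ∈ Cs, ∀ c' ∈ Cs, PairOK G H Cs x g c c' := by
  have hm' : 1000 ≤ m := le_trans (by norm_num) hm
  have hC : Nonempty C := by
    rw [← Fintype.card_pos_iff, hS.cardC]
    omega
  obtain ⟨c0⟩ := hC
  have hs0 : 0 < m / 5 := by omega
  have hsR : (0 : ℝ) < ((m / 5 : ℕ) : ℝ) := by exact_mod_cast hs0
  set J : Finset (C × C) := Cs ×ˢ (Finset.univ : Finset C) with hJ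
  have hJc : (J.card : ℝ) ≤ (m : ℝ) ^ 2 := by
    have h1 : J.card ≤ m * m := by
      rw [hJ, Finset.card_product, Finset.card_univ, hS.cardC]
      refine Nat.mul_le_mul_right _ ?_
      rw [← hS.cardC]
      exact Finset.card_le_univ _
    have h2 : (J.card : ℝ) ≤ (m : ℝ) * m := by exact_mod_cast h1
    rw [pow_two]
    exact h2
  obtain ⟨g, hg, -⟩ := greedy_gen (ι := C) (α := V → C) (γ := C × C) (fun _ => 0) J
    (fun c p => (cross G H Cs x c p.1 : ℝ) / ((m / 5 : ℕ) : ℝ)) (fun c p => by positivity)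
    (fun c g p => Hit G H Cs x c g p)
    (fun S g => (∀ c ∈ S, RowOK G H κ Cs x f c (g c)) ∧
      ∀ c ∈ S, ∀ c' ∈ S, PairOK G H Cs x g c c')
    ⟨fun _ _ => c0, by simp⟩ Cs (by
      intro S hSC c hc hcS _ g hg hpot
      have hload2 : ∀ a : C,
          7 * (S.filter (fun c' => Hit G H Cs x c' (g c') (c, a))).card ≤ m := by
        intro a
        refine hload _ ?_
        have h1 := hpot (c, a) (Finset.mem_product.2 ⟨hc, Finset.mem_univ a⟩)
        refine h1.trans ?_
        have h2 := prod_le_exp S Cs hSC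
          (fun c' => (cross G H Cs x c' c : ℝ) / ((m / 5 : ℕ) : ℝ)) (fun c' => by positivity)
          ((51 / 400) * m) (hS.rate_sum hm' hc)
        have h3 : Real.exp ((51 / 400) * (m : ℝ) / 10) = Real.exp ((51 / 4000) * m) := by
          congr 1
          ring
        rw [h3] at h2
        rw [one_mul]
        exact mul_le_mul hJc h2 (Finset.prod_nonneg fun i _ => by positivity) (by positivity)
      have hcard := hS.privs_card hm hc
      obtain ⟨A, hA1, hA2, hA3⟩ := disjoint_matchings (privs G H Cs x c)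
        (needs G H κ Cs x f c) (hS.needs_card hf hc)
        (fun v a => Forb G H κ Cs x f S g v a) (m / 5)
        (fun v hv => hS.forb_row hm' f g S hSC hc (mem_privs.1 hv) _)
        (fun a _ => hS.forb_col hm' f g S hSC hg.1 hc a (hload1 c hc a) (hload2 a))
        (m / 5) (by omega)
      refine ⟨A, ?_, ?_, ?_⟩
      · rw [← Finset.card_pos, hA1]
        exact hs0
      · intro a ha
        obtain ⟨h1, h2, h3⟩ := hA2 a ha
        refine good_step hg hcS (a := a) ?_ ?_ ?_ _ ?_ ?_ ?_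
        · intro v v' hv hv' hne heq
          exact hne (h1 (Finset.mem_coe.2 (mem_privs.2 hv)) (Finset.mem_coe.2 (mem_privs.2 hv'))
            heq)
        · intro v hv
          exact mem_needs.1 (h2 v (mem_privs.2 hv))
        · intro v hv
          exact h3 v (mem_privs.2 hv)
        · intro c' hc'
          refine Function.update_of_ne ?_ _ _
          rintro rfl
          exact hcS hc'
        · exact Function.update_self _ _ _
        · intro c' hc'
          exact Finset.mem_insert.1 hc'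
      · rintro ⟨c', a0⟩ _
        have h1 : (A.filter (fun a => Hit G H Cs x c a (c', a0))).card ≤
            cross G H Cs x c c' := by
          unfold cross
          refine Finset.card_le_card_of_forall_subsingleton
            (fun a v => Priv G H Cs x c v ∧ a v = a0) ?_ ?_
          · intro a ha
            obtain ⟨_, v, h4, h5, v', h6, h7⟩ := Finset.mem_filter.1 ha
            exact ⟨v, Finset.mem_filter.2 ⟨mem_privs.2 h4, v', h6, h7⟩, h4, h5⟩
          · rintro v - a ⟨ha, h4, h5⟩ a' ⟨ha', _, h5'⟩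
            by_contra hne
            exact hA3 a (Finset.mem_filter.1 ha).1 a' (Finset.mem_filter.1 ha').1 hne v
              (mem_privs.2 h4) (h5.trans h5'.symm)
        rw [hA1, div_mul_cancel₀ _ hsR.ne']
        exact_mod_cast h1)
  exact ⟨g, hg⟩

end

end Pool.Agent.Helper95.BD
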