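import Pool.Agent.Helper95.BD.S0

/-!
# The colouring of the centres and of their neighbours
-/

set_option autoImplicit false

namespace Pool.Agent.Helper95.BD

open Pool.Agent.Helper95.BC

section

variable {V C : Type} [Fintype V] [Fintype C] {G : SimpleGraph V} {m : ℕ}
  {H : Finset V} {κ : V → C} {Cs : Finset C} {x : C → V}

/-- the colouring of `H`, the centres, the shared and the private vertices; `x c` sees every colour
since its `m - 1` neighbours have different colours, all different from `c` -/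
theorem structure_colouring (hS : Stars G m H κ Cs x) (f : V → C) (hf : SharedCol G H κ Cs x f)
    (g : C → V → C) (hg1 : ∀ c ∈ Cs, RowOK G H κ Cs x f c (g c))
    (hg2 : ∀ c ∈ Cs, ∀ c' ∈ Cs, PairOK G H Cs x g c c') :
    ∃ (T : Finset V) (φ : V → C),
      (∀ v, v ∈ T ↔ v ∈ H ∨ (∃ c ∈ Cs, x c = v) ∨ ∃ c ∈ Cs, G.Adj (x c) v) ∧
      (∀ u ∈ T, ∀ v ∈ T, G.Adj u v → φ u ≠ φ v) ∧ (∀ h ∈ H, φ h = κ h) ∧
      ∀ c ∈ Cs, φ (x c) = c ∧ ∀ a, a ≠ c → ∃ w ∈ T, G.Adj (x c) w ∧ φ w = a := by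
  classical
  -- the colouring of the four kinds of vertices
  let ψ0 : V → C := fun v => if v ∈ H then κ v else
    if h : ∃ c ∈ Cs, x c = v then h.choose else
      if Shared G H Cs x v then f v else
        if h : ∃ c ∈ Cs, Priv G H Cs x c v then g h.choose v else κ v
  have e1 : ∀ v ∈ H, ψ0 v = κ v := fun v hv => if_pos hv
  have e2 : ∀ c ∈ Cs, ψ0 (x c) = c := by
    intro c hc
    have h : ∃ c' ∈ Cs, x c' = x c := ⟨c, hc, rfl⟩
    have h1 : ψ0 (x c) = h.choose := by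
      show (if x c ∈ H then κ (x c) else
        if h : ∃ c' ∈ Cs, x c' = x c then h.choose else
          if Shared G H Cs x (x c) then f (x c) else
            if h : ∃ c' ∈ Cs, Priv G H Cs x c' (x c) then g h.choose (x c) else κ (x c)) = _
      rw [if_neg (hS.xH c hc), dif_pos h]
    rw [h1]
    exact hS.xinj h.choose_spec.1 hc h.choose_spec.2
  have n1 : ∀ c ∈ Cs, ∀ v, G.Adj (x c) v → ¬ ∃ c' ∈ Cs, x c' = v := by
    rintro c hc v hcv ⟨c', hc', h⟩
    exact hS.not_centre hc hc' hcv h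
  have e3 : ∀ z, Shared G H Cs x z → ψ0 z = f z := by
    intro z hz
    have hz' := hz
    obtain ⟨hzH, c, hc, -, -, -, hcz, -⟩ := hz'
    show (if z ∈ H then κ z else
      if h : ∃ c' ∈ Cs, x c' = z then h.choose else
        if Shared G H Cs x z then f z else
          if h : ∃ c' ∈ Cs, Priv G H Cs x c' z then g h.choose z else κ z) = _
    rw [if_neg hzH, dif_neg (n1 c hc z hcz), if_pos hz]
  have e4 : ∀ c ∈ Cs, ∀ v, Priv G H Cs x c v → ψ0 v = g c v := by
    intro c hc v hv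
    have h : ∃ c' ∈ Cs, Priv G H Cs x c' v := ⟨c, hc, hv⟩
    have hns : ¬ Shared G H Cs x v := fun hs => hs.not_priv hv
    have h1 : ψ0 v = g h.choose v := by
      show (if v ∈ H then κ v else
        if h : ∃ c' ∈ Cs, x c' = v then h.choose else
          if Shared G H Cs x v then f v else
            if h : ∃ c' ∈ Cs, Priv G H Cs x c' v then g h.choose v else κ v) = _
      rw [if_neg hv.1, dif_neg (n1 c hc v hv.2.1), if_neg hns, dif_pos h]
    rw [h1, hv.2.2 _ h.choose_spec.1 h.choose_spec.2.2.1]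
  -- proper on the four kinds
  have hsym : ∀ {p q : V → Prop}, (∀ u v, p u → q v → G.Adj u v → ψ0 u ≠ ψ0 v) →
      ∀ u v, q u → p v → G.Adj u v → ψ0 u ≠ ψ0 v :=
    fun h u v hu hv huv => (h v u hv hu huv.symm).symm
  have p11 : ∀ u v, u ∈ H → v ∈ H → G.Adj u v → ψ0 u ≠ ψ0 v := by
    intro u v hu hv huv
    rw [e1 u hu, e1 v hv]
    exact hS.kadj u hu v hv huv
  have p12 : ∀ u v, u ∈ H → (∃ c ∈ Cs, x c = v) → G.Adj u v → ψ0 u ≠ ψ0 v := by
    rintro u _ hu ⟨c, hc, rfl⟩ huv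
    rw [e1 u hu, e2 c hc]
    exact hS.xk c hc u hu huv.symm
  have p13 : ∀ u v, u ∈ H → Shared G H Cs x v → G.Adj u v → ψ0 u ≠ ψ0 v := by
    intro u v hu hv huv
    rw [e1 u hu, e3 v hv]
    exact (hf.hn v hv u hu huv.symm).symm
  have p14 : ∀ u v, u ∈ H → (∃ c ∈ Cs, Priv G H Cs x c v) → G.Adj u v → ψ0 u ≠ ψ0 v := by
    rintro u v hu ⟨c, hc, hv⟩ huv
    rw [e1 u hu, e4 c hc v hv]
    exact ((hg1 c hc).hn v hv u hu huv.symm).symm
  have p22 : ∀ u v, (∃ c ∈ Cs, x c = u) → (∃ c ∈ Cs, x c = v) → G.Adj u v →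
      ψ0 u ≠ ψ0 v := by
    rintro _ _ ⟨c, hc, rfl⟩ ⟨c', hc', rfl⟩ huv
    exact absurd huv (hS.xadj c hc c' hc')
  have p23 : ∀ u v, (∃ c ∈ Cs, x c = u) → Shared G H Cs x v → G.Adj u v → ψ0 u ≠ ψ0 v := by
    rintro _ v ⟨c, hc, rfl⟩ hv huv
    rw [e2 c hc, e3 v hv]
    exact (hf.cen v hv c hc huv).symm
  have p24 : ∀ u v, (∃ c ∈ Cs, x c = u) → (∃ c ∈ Cs, Priv G H Cs x c v) → G.Adj u v →
      ψ0 u ≠ ψ0 v := by
    rintro _ v ⟨c, hc, rfl⟩ ⟨c', hc', hv⟩ huv
    have : c = c' := hv.2.2 c hc huv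
    subst this
    rw [e2 c hc, e4 c hc v hv]
    exact ((hg1 c hc).cen v hv).symm
  have p33 : ∀ u v, Shared G H Cs x u → Shared G H Cs x v → G.Adj u v → ψ0 u ≠ ψ0 v := by
    intro u v hu hv huv
    rw [e3 u hu, e3 v hv]
    exact hf.adj u v hu hv huv
  have p34 : ∀ u v, Shared G H Cs x u → (∃ c ∈ Cs, Priv G H Cs x c v) → G.Adj u v →
      ψ0 u ≠ ψ0 v := by
    rintro u v hu ⟨c, hc, hv⟩ huv
    rw [e3 u hu, e4 c hc v hv]
    exact ((hg1 c hc).sn v hv u hu huv.symm).symm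
  have p44 : ∀ u v, (∃ c ∈ Cs, Priv G H Cs x c u) → (∃ c ∈ Cs, Priv G H Cs x c v) →
      G.Adj u v → ψ0 u ≠ ψ0 v := by
    rintro u v ⟨c, hc, hu⟩ ⟨c', hc', hv⟩ huv
    rw [e4 c hc u hu, e4 c' hc' v hv]
    exact hg2 c hc c' hc' u v hu hv huv
  have hprop : ∀ u v,
      (u ∈ H ∨ (∃ c ∈ Cs, x c = u) ∨ Shared G H Cs x u ∨ ∃ c ∈ Cs, Priv G H Cs x c u) →
      (v ∈ H ∨ (∃ c ∈ Cs, x c = v) ∨ Shared G H Cs x v ∨ ∃ c ∈ Cs, Priv G H Cs x c v) →
        G.Adj u v → ψ0 u ≠ ψ0 v := by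
    rintro u v (hu | hu | hu | hu) (hv | hv | hv | hv)
    · exact p11 u v hu hv
    · exact p12 u v hu hv
    · exact p13 u v hu hv
    · exact p14 u v hu hv
    · exact hsym p12 u v hu hv
    · exact p22 u v hu hv
    · exact p23 u v hu hv
    · exact p24 u v hu hv
    · exact hsym p13 u v hu hv
    · exact hsym p23 u v hu hv
    · exact p33 u v hu hv
    · exact p34 u v hu hv
    · exact hsym p14 u v hu hv
    · exact hsym p24 u v hu hv
    · exact hsym p34 u v hu hv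
    · exact p44 u v hu hv
  have hkind : ∀ v, (v ∈ H ∨ (∃ c ∈ Cs, x c = v) ∨ ∃ c ∈ Cs, G.Adj (x c) v) →
      (v ∈ H ∨ (∃ c ∈ Cs, x c = v) ∨ Shared G H Cs x v ∨ ∃ c ∈ Cs, Priv G H Cs x c v) := by
    rintro v (hv | hv | ⟨c, hc, hcv⟩)
    · exact Or.inl hv
    · exact Or.inr (Or.inl hv)
    · by_cases hvH : v ∈ H
      · exact Or.inl hvH
      · rcases hS.shared_or_priv hc hvH hcv with h | h
        · exact Or.inr (Or.inr (Or.inl h))
        · exact Or.inr (Or.inr (Or.inr ⟨c, hc, h⟩))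
  have hmem : ∀ v, v ∈ Finset.univ.filter
      (fun v => v ∈ H ∨ (∃ c ∈ Cs, x c = v) ∨ ∃ c ∈ Cs, G.Adj (x c) v) ↔
      v ∈ H ∨ (∃ c ∈ Cs, x c = v) ∨ ∃ c ∈ Cs, G.Adj (x c) v := by
    intro v
    simp only [Finset.mem_filter, Finset.mem_univ, true_and]
  refine ⟨Finset.univ.filter
      (fun v => v ∈ H ∨ (∃ c ∈ Cs, x c = v) ∨ ∃ c ∈ Cs, G.Adj (x c) v), ψ0, hmem, ?_, e1,
    fun c hc => ⟨e2 c hc, ?_⟩⟩
  · intro u hu v hv huv
    exact hprop u v (hkind u ((hmem u).1 hu)) (hkind v ((hmem v).1 hv)) huv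
  -- the colours of the neighbours of `x c` are different
  have hinj : Set.InjOn ψ0 (nbr G (x c) : Set V) := by
    intro v hv v' hv' he
    rw [Finset.mem_coe, mem_nbr] at hv hv'
    by_contra hne
    by_cases hvH : v ∈ H
    · by_cases hvH' : v' ∈ H
      · rw [e1 v hvH, e1 v' hvH'] at he
        exact hS.kinj c hc v hvH v' hvH' hv hv' hne he
      · rcases hS.shared_or_priv hc hvH' hv' with h | h
        · rw [e1 v hvH, e3 v' h] at he
          exact hf.hr v' h c hc hv' v hvH hv he.symm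
        · rw [e1 v hvH, e4 c hc v' h] at he
          exact (hg1 c hc).hr v' h v hvH hv he.symm
    · rcases hS.shared_or_priv hc hvH hv with h | h
      · by_cases hvH' : v' ∈ H
        · rw [e3 v h, e1 v' hvH'] at he
          exact hf.hr v h c hc hv v' hvH' hv' he
        · rcases hS.shared_or_priv hc hvH' hv' with h' | h'
          · rw [e3 v h, e3 v' h'] at he
            exact hf.row v v' h h' hne ⟨c, hc, hv, hv'⟩ he
          · rw [e3 v h, e4 c hc v' h'] at he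
            exact (hg1 c hc).sr v' h' v h hv he.symm
      · by_cases hvH' : v' ∈ H
        · rw [e4 c hc v h, e1 v' hvH'] at he
          exact (hg1 c hc).hr v h v' hvH' hv' he
        · rcases hS.shared_or_priv hc hvH' hv' with h' | h'
          · rw [e4 c hc v h, e3 v' h'] at he
            exact (hg1 c hc).sr v h v' h' hv' he
          · rw [e4 c hc v h, e4 c hc v' h'] at he
            exact (hg1 c hc).inj v v' h h' hne he
  have hcard : ((nbr G (x c)).image ψ0).card + 1 = Fintype.card C := by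
    rw [Finset.card_image_of_injOn hinj, hS.xdeg c hc, hS.cardC]
  have hcn : c ∉ (nbr G (x c)).image ψ0 := by
    intro h
    obtain ⟨v, hv, hvc⟩ := Finset.mem_image.1 h
    rw [mem_nbr] at hv
    exact hprop (x c) v (Or.inr (Or.inl ⟨c, hc, rfl⟩)) (hkind v (Or.inr (Or.inr ⟨c, hc, hv⟩)))
      hv ((e2 c hc).trans hvc.symm)
  have hall : insert c ((nbr G (x c)).image ψ0) = Finset.univ := by
    apply Finset.eq_univ_of_card
    rw [Finset.card_insert_of_notMem hcn, hcard]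
  intro a ha
  have ha' : a ∈ insert c ((nbr G (x c)).image ψ0) := by
    rw [hall]
    exact Finset.mem_univ a
  rcases Finset.mem_insert.1 ha' with h | h
  · exact absurd h ha
  · obtain ⟨w, hw, hwa⟩ := Finset.mem_image.1 h
    exact ⟨w, (hmem w).2 (Or.inr (Or.inr ⟨c, hc, mem_nbr.1 hw⟩)), mem_nbr.1 hw, hwa⟩

end

end Pool.Agent.Helper95.BD
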