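import Pool.Agent.Helper95.BD.N1
import Pool.Agent.Helper95.BD.S3
import Pool.Agent.Helper95.BD.S4
import Pool.Agent.Helper95.BD.S6c
import Pool.Agent.Helper95.BD.S7c
import Pool.Agent.Helper95.BD.S8
import Pool.Agent.Helper95.BD.S11
import Pool.Agent.Helper95.BD.S12
import Pool.Agent.Helper95.BC.A
import Pool.Agent.Helper95.BC.Girth

/-!
# Assembly
-/

set_option autoImplicit false

namespace Pool.Agent.Helper95.BD

open Pool.Agent.Helper95.BC

open Classical in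
/-- the centres, the three stages and the extension give a colouring with b-vertices for all colours
in `Cs` -/
theorem stars_colouring : ∃ m₀ : ℕ, ∀ m : ℕ, m₀ ≤ m → ∀ (V C : Type) [Fintype V] [Fintype C]
    [Nonempty V] (G : SimpleGraph V) (H X : Finset V) (κ : V → C) (Cs : Finset C) (s : ℕ),
    1 ≤ s → s ≤ m → C4Free G → Fintype.card C = m → (∀ v, v ∉ H → (nbr G v).card ≤ m) →
    (∀ h ∈ H, ∀ h' ∈ H, G.Adj h h' → κ h ≠ κ h') →
    (∀ a, (H.filter (fun h => κ h = a)).card ≤ 2) →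
    (∀ v ∈ X, v ∉ H) → (∀ v ∈ X, (nbr G v).card + 1 = m) →
    (∀ x ∈ X, ∀ h ∈ H, ∀ h' ∈ H, G.Adj x h → G.Adj x h' → h ≠ h' → κ h ≠ κ h') →
    (∀ x ∈ X, (H.filter (fun h => G.Adj x h)).card ^ 2 ≤ 16 * m) →
    (∀ x ∈ X, ∀ v, v ∉ H → G.Adj x v → 1000 * (H.filter (fun h => G.Adj v h)).card ≤ m) →
    (∀ v, v ∉ H → (nbr G v ∩ X).card ≤ s) →
    X.card ≤ 192 * s * m →
    (∀ c ∈ Cs, ∃ X' ⊆ X, 47 * s * m ≤ X'.card ∧ ∀ v ∈ X', ∀ h ∈ H, G.Adj v h → κ h ≠ c) →
    (Finset.univ.filter (fun v => v ∉ H ∧ (nbr G v).card = m)).card ≤ 200 * m ^ 2 →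
    (∀ v, v ∉ H → (nbr G v).card = m → 4 * (nbr G v ∩ H).card ≤ 3 * m + 4) →
    ∃ (x : C → V) (ψ : V → C), (∀ c ∈ Cs, x c ∈ X) ∧ (∀ u v, G.Adj u v → ψ u ≠ ψ v) ∧
      (∀ h ∈ H, ψ h = κ h) ∧ ∀ c ∈ Cs, ψ (x c) = c ∧ IsBVertex G ψ (x c) := by
  obtain ⟨m₁, h1⟩ := load_bound 1200 3 40 (1 / 450) (by norm_num)
  obtain ⟨m₂, h2⟩ := load_bound 1 2 30 (1 / 340) (by norm_num)
  obtain ⟨m₃, h3⟩ := load_bound 1 2 7 (51 / 4000) (by norm_num)
  obtain ⟨m₄, h4⟩ := rank_bound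
  obtain ⟨m₅, h5⟩ := extend_tight
  refine ⟨m₁ + m₂ + m₃ + m₄ + m₅ + 16000000, ?_⟩
  intro m hm V C _ _ _ G H X κ Cs s hs hsm hC4 hcard hdeg hκ1 hκ2 hXH hXdeg hXk hXh hXv hXs hXc
    hcand hB hBH
  have hm0 : 16000000 ≤ m := by omega
  have hcand' : ∀ c ∈ Cs, 47 * s * m ≤
      (X.filter (fun v => ∀ h ∈ H, G.Adj v h → κ h ≠ c)).card := by
    intro c hc
    obtain ⟨X', h6, h7, h8⟩ := hcand c hc
    exact h7.trans (Finset.card_le_card fun v hv => Finset.mem_filter.2 ⟨h6 hv, h8 v hv⟩)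
  obtain ⟨x, hx1, hx2, hx3, hx4, hx5⟩ := choose_centres G m s (by omega) hs hsm H X
    (Finset.univ.filter (fun v => v ∉ H ∧ (nbr G v).card = m)) κ Cs hcard hXH hdeg hXs hXc hB hcand'
    (h1 m (by omega)) (h4 m (by omega))
  have hS : Stars G m H κ Cs x :=
    { c4 := hC4
      cardC := hcard
      deg := hdeg
      kadj := hκ1
      kcol := hκ2
      xH := fun c hc => hXH _ (hx1 c hc)
      xdeg := fun c hc => hXdeg _ (hx1 c hc)
      kinj := fun c hc => hXk _ (hx1 c hc)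
      xh := fun c hc => hXh _ (hx1 c hc)
      xk := hx2
      xadj := hx3
      xinj := hx4
      xm := fun c hc => (hx5 _ (hXH _ (hx1 c hc)) (Or.inl (hx1 c hc))).1
      vm := fun c hc v hv hcv => (hx5 v hv (Or.inr (Or.inr ⟨x c, hx1 c hc, hcv⟩))).1
      vH := fun c hc => hXv _ (hx1 c hc)
      vr := fun c hc v hv hcv => (hx5 v hv (Or.inr (Or.inr ⟨x c, hx1 c hc, hcv⟩))).2 }
  obtain ⟨f, hf, hf1⟩ := stage_one hS hm0 (h2 m (by omega))
  obtain ⟨g, hg1, hg2⟩ := stage_two hS hm0 f hf hf1 (h3 m (by omega))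
  obtain ⟨T, φ, hT, hφ1, hφ2, hφ3⟩ := structure_colouring hS f hf g hg1 hg2
  have hTH : ∀ v, v ∉ T → v ∉ H := fun v hv h => hv ((hT v).2 (Or.inl h))
  obtain ⟨ψ, hψ1, hψ2⟩ := h5 m (by omega) V C G T φ hC4 hcard hφ1
    (fun v hv => hdeg v (hTH v hv))
    ((Finset.card_le_card (by
      intro v hv
      rw [Finset.mem_filter] at hv ⊢
      exact ⟨hv.1, hTH v hv.2.1, hv.2.2⟩)).trans hB)
    (by
      intro v hv hvm
      have h6 := hBH v (hTH v hv) hvm
      have h7 := (hx5 v (hTH v hv) (Or.inr (Or.inl (Finset.mem_filter.2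
        ⟨Finset.mem_univ _, hTH v hv, hvm⟩)))).1
      have h8 := hS.item_nbrs v
      have h9 : (nbr G v ∩ T).card ≤ (nbr G v ∩ H).card +
          (Finset.univ.filter (fun w => w ∉ H ∧ G.Adj v w ∧
            ∃ c ∈ Cs, x c ≠ v ∧ G.Adj (x c) w)).card := by
        refine le_trans (Finset.card_le_card ?_) (Finset.card_union_le _ _)
        intro w hw
        rw [Finset.mem_inter, mem_nbr] at hw
        obtain ⟨hvw, hwT⟩ := hw
        rw [Finset.mem_union, Finset.mem_inter, mem_nbr, Finset.mem_filter]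
        by_cases hwH : w ∈ H
        · exact Or.inl ⟨hvw, hwH⟩
        · right
          refine ⟨Finset.mem_univ _, hwH, hvw, ?_⟩
          rcases (hT w).1 hwT with h | ⟨c, hc, hcw⟩ | ⟨c, hc, hcw⟩
          · exact absurd h hwH
          · exact absurd ((hT v).2 (Or.inr (Or.inr ⟨c, hc, by rw [hcw]; exact hvw.symm⟩))) hv
          · exact ⟨c, hc, fun h => hv ((hT v).2 (Or.inr (Or.inl ⟨c, hc, h⟩))), hcw⟩
      omega)
  refine ⟨x, ψ, hx1, hψ1, fun h hh => ?_, fun c hc => ?_⟩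
  · rw [hψ2 h ((hT h).2 (Or.inl hh)), hφ2 h hh]
  · have h6 : ψ (x c) = c := by
      rw [hψ2 _ ((hT _).2 (Or.inr (Or.inl ⟨c, hc, rfl⟩))), (hφ3 c hc).1]
    refine ⟨h6, fun a ha => ?_⟩
    rw [h6] at ha
    obtain ⟨w, hw, hcw, hwa⟩ := (hφ3 c hc).2 a ha
    exact ⟨w, hcw, by rw [hψ2 w hw, hwa]⟩

open Classical in
theorem core_step : ∃ m₀ : ℕ, ∀ m : ℕ, m₀ ≤ m → ∀ (V C : Type) [Fintype V] [Fintype C]
    (G : SimpleGraph V) (H D : Finset V) (κ : V → C) (s e : ℕ),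
    Fintype.card C = m → 1 ≤ s → 1 ≤ e → e ≤ 2 → C4Free G → H.card ≤ m + 2 →
    (∀ h ∈ H, ∀ h' ∈ H, G.Adj h h' → κ h ≠ κ h') →
    (∀ a, (H.filter (fun h => κ h = a)).card ≤ e) →
    ((H ×ˢ H).filter (fun p => p.1 ≠ p.2 ∧ κ p.1 = κ p.2)).card ≤ 4 →
    (∀ v, v ∉ H → (nbr G v).card ≤ m) →
    (Finset.univ.filter (fun v => v ∉ H ∧ (nbr G v).card = m)).card ≤ 200 * m ^ 2 →
    (∀ v, v ∉ H → (nbr G v).card = m → 4 * (nbr G v ∩ H).card ≤ 3 * m + 4) →
    (∀ v ∈ D, v ∉ H ∧ (nbr G v).card + 1 = m) →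
    (∀ v, v ∉ H → (nbr G v ∩ D).card ≤ s) →
    (96 * e + 2) * s * m ≤ D.card → ∃ ψ : V → C, IsBColouring G ψ := by
  obtain ⟨m₁, h1⟩ := candidates
  obtain ⟨m₂, h2⟩ := stars_colouring
  refine ⟨m₁ + m₂ + 2, ?_⟩
  intro m hm V C _ _ G H D κ s' e hcard hs' he1 he2 hC4 hH hκ1 hκ2 hκ3 hdeg hB hBH hD hDs' hDc'
  -- `s ≤ m` without loss of generality
  obtain ⟨s, hs, hsm, hDs, hDc⟩ : ∃ s, 1 ≤ s ∧ s ≤ m ∧ (∀ v, v ∉ H → (nbr G v ∩ D).card ≤ s) ∧
      (96 * e + 2) * s * m ≤ D.card := by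
    refine ⟨min s' m, le_min hs' (by omega), min_le_right _ _, fun v hv => le_min (hDs' v hv) ?_, ?_⟩
    · exact (Finset.card_le_card Finset.inter_subset_left).trans (hdeg v hv)
    · refine le_trans ?_ hDc'
      exact Nat.mul_le_mul_right _ (Nat.mul_le_mul_left _ (min_le_left _ _))
  obtain ⟨X₁, hX₁D, hX₁c, hX₁k, hX₁h, hX₁v⟩ := h1 m (by omega) V C G H D κ s hs hC4 hH hκ3 hDs
  have hX₁ : 96 * e * s * m ≤ X₁.card := by nlinarith
  obtain ⟨X, hXX₁, hXcard⟩ := Finset.exists_subset_card_eq hX₁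
  have hXD : ∀ v ∈ X, v ∈ D := fun v hv => hX₁D (hXX₁ hv)
  have hsmp : 1 ≤ s * m := Nat.one_le_iff_ne_zero.2 (Nat.mul_ne_zero (by omega) (by omega))
  have hXne : X.Nonempty := by
    rw [← Finset.card_pos, hXcard]
    have : 96 * 1 * (s * m) ≤ 96 * e * (s * m) := Nat.mul_le_mul_right _ (by omega)
    nlinarith
  have : Nonempty V := ⟨hXne.choose⟩
  have hXc2 : X.card ≤ 192 * s * m := by
    rw [hXcard]
    have : 96 * e * (s * m) ≤ 192 * (s * m) := Nat.mul_le_mul_right _ (by omega)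
    nlinarith
  have hXs : ∀ Y ⊆ X, ∀ v, v ∉ H → (nbr G v ∩ Y).card ≤ s := fun Y hY v hv =>
    (Finset.card_le_card (Finset.inter_subset_inter_left (hY.trans fun v hv => hXD v hv))).trans
      (hDs v hv)
  by_cases hstar : ∃ h ∈ H, 48 * s * m ≤ (X.filter (fun v => G.Adj v h)).card
  · -- many candidates are adjacent to `h₀`
    obtain ⟨h₀, hh₀, hbig⟩ := hstar
    have hsub : X.filter (fun v => G.Adj v h₀) ⊆ X := Finset.filter_subset _ _
    obtain ⟨x, ψ, hx, hψ1, hψ2, hψ3⟩ := h2 m (by omega) V C G H (X.filter (fun v => G.Adj v h₀)) κ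
      (Finset.univ.erase (κ h₀)) s hs hsm hC4 hcard hdeg hκ1 (fun a => (hκ2 a).trans he2)
      (fun v hv => (hD v (hXD v (hsub hv))).1)
      (fun v hv => (hD v (hXD v (hsub hv))).2)
      (fun v hv => hX₁k v (hXX₁ (hsub hv)))
      (fun v hv => hX₁h v (hXX₁ (hsub hv)))
      (fun v hv => hX₁v v (hXX₁ (hsub hv)))
      (hXs _ hsub)
      ((Finset.card_le_card hsub).trans hXc2)
      (by
        intro c hc
        have hc' : c ≠ κ h₀ := Finset.ne_of_mem_erase hc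
        -- the vertices adjacent to `h₀` and to some `h` of colour `c`
        obtain ⟨p, hp⟩ : ∃ p : V → Prop, ∀ v, p v ↔ ∀ h ∈ H, G.Adj v h → κ h ≠ c :=
          ⟨_, fun _ => Iff.rfl⟩
        refine ⟨(X.filter (fun v => G.Adj v h₀)).filter p,
          Finset.filter_subset _ _, ?_, fun v hv => (hp v).1 (Finset.mem_filter.1 hv).2⟩
        have h4 := Finset.card_filter_add_card_filter_not
          (s := X.filter (fun v => G.Adj v h₀)) p
        have h5 : ((X.filter (fun v => G.Adj v h₀)).filter (fun v => ¬ p v)).card ≤ 2 := by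
          refine le_trans ?_ ((hκ2 c).trans he2)
          have h6 : (X.filter (fun v => G.Adj v h₀)).filter (fun v => ¬ p v) ⊆
              (H.filter (fun h => κ h = c)).biUnion (fun h => nbr G h ∩ nbr G h₀) := by
            intro v hv
            rw [Finset.mem_filter, Finset.mem_filter] at hv
            obtain ⟨⟨_, hv1⟩, hv2⟩ := hv
            rw [hp] at hv2
            push Not at hv2
            obtain ⟨h, hh, hvh, hhc⟩ := hv2
            rw [Finset.mem_biUnion]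
            refine ⟨h, Finset.mem_filter.2 ⟨hh, hhc⟩, ?_⟩
            rw [Finset.mem_inter, mem_nbr, mem_nbr]
            exact ⟨hvh.symm, hv1.symm⟩
          refine (Finset.card_le_card h6).trans (Finset.card_biUnion_le.trans ?_)
          refine (Finset.sum_le_card_nsmul _ _ 1 fun h hh => ?_).trans (by simp)
          refine hC4.card_le_one ?_
          rintro rfl
          exact hc' (Finset.mem_filter.1 hh).2.symm
        have h7 : 48 * s * m = 47 * s * m + s * m := by ring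
        have h8 : 2 ≤ s * m := by
          have : 1 * m ≤ s * m := Nat.mul_le_mul_right _ hs
          omega
        omega) hB hBH
    refine ⟨ψ, hψ1, fun c => ?_⟩
    by_cases hc : c = κ h₀
    · subst hc
      refine ⟨h₀, hψ2 h₀ hh₀, fun c' hc' => ?_⟩
      rw [hψ2 h₀ hh₀] at hc'
      have hc'' : c' ∈ Finset.univ.erase (κ h₀) := Finset.mem_erase.2 ⟨hc', Finset.mem_univ _⟩
      exact ⟨x c', (Finset.mem_filter.1 (hx c' hc'')).2.symm, (hψ3 c' hc'').1⟩
    · have hc'' : c ∈ Finset.univ.erase (κ h₀) := Finset.mem_erase.2 ⟨hc, Finset.mem_univ _⟩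
      exact ⟨x c, (hψ3 c hc'').1, (hψ3 c hc'').2⟩
  · push Not at hstar
    obtain ⟨x, ψ, hx, hψ1, hψ2, hψ3⟩ := h2 m (by omega) V C G H X κ Finset.univ s hs hsm hC4 hcard
      hdeg hκ1 (fun a => (hκ2 a).trans he2)
      (fun v hv => (hD v (hXD v hv)).1)
      (fun v hv => (hD v (hXD v hv)).2)
      (fun v hv => hX₁k v (hXX₁ hv))
      (fun v hv => hX₁h v (hXX₁ hv))
      (fun v hv => hX₁v v (hXX₁ hv))
      (hXs _ (Finset.Subset.refl _)) hXc2
      (by
        intro c _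
        obtain ⟨p, hp⟩ : ∃ p : V → Prop, ∀ v, p v ↔ ∀ h ∈ H, G.Adj v h → κ h ≠ c :=
          ⟨_, fun _ => Iff.rfl⟩
        refine ⟨X.filter p, Finset.filter_subset _ _, ?_,
          fun v hv => (hp v).1 (Finset.mem_filter.1 hv).2⟩
        have h4 := Finset.card_filter_add_card_filter_not (s := X) p
        have h5 : (X.filter (fun v => ¬ p v)).card ≤ e * (48 * s * m) := by
          have h6 : X.filter (fun v => ¬ p v) ⊆ (H.filter (fun h => κ h = c)).biUnion
              (fun h => X.filter (fun v => G.Adj v h)) := by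
            intro v hv
            rw [Finset.mem_filter] at hv
            obtain ⟨hv1, hv2⟩ := hv
            rw [hp] at hv2
            push Not at hv2
            obtain ⟨h, hh, hvh, hhc⟩ := hv2
            rw [Finset.mem_biUnion]
            exact ⟨h, Finset.mem_filter.2 ⟨hh, hhc⟩, Finset.mem_filter.2 ⟨hv1, hvh⟩⟩
          refine (Finset.card_le_card h6).trans (Finset.card_biUnion_le.trans ?_)
          refine (Finset.sum_le_card_nsmul _ _ (48 * s * m) fun h hh => ?_).trans ?_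
          · exact (hstar h (Finset.mem_filter.1 hh).1).le
          · rw [smul_eq_mul]
            exact Nat.mul_le_mul_right _ (hκ2 c)
        have h7 : 96 * e * s * m = e * (48 * s * m) + e * (48 * s * m) := by ring
        have h8 : 1 * (48 * s * m) ≤ e * (48 * s * m) := Nat.mul_le_mul_right _ he1
        have h9 : 48 * s * m = 47 * s * m + s * m := by ring
        omega) hB hBH
    exact ⟨ψ, hψ1, fun c => ⟨x c, (hψ3 c (Finset.mem_univ c)).1, (hψ3 c (Finset.mem_univ c)).2⟩⟩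

end Pool.Agent.Helper95.BD
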